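import Mathlib

/-!
MP_0fb3e0_gt, part CA. C3: in a 16-dimensional real algebra with a positive involution, only the
scalars commute with four anticommuting self-adjoint elements of square 1.
-/

set_option autoImplicit false

namespace Pool.Agent.Helper84.NG

open Module

/-- the sign of the commutation of `X i` with `P j b` -/
def csg (i j : Fin 4) (b : Bool) : ℤ := if j ≠ i ∧ b = true then -1 else 1

/-- the sign of the commutation of `X i` with the product -/
def csgn (i : Fin 4) (b : Fin 4 → Bool) : ℤ := csg i 0 (b 0) * csg i 1 (b 1) * csg i 2 (b 2) * csg i 3 (b 3)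

theorem csgn_pm (i : Fin 4) (b : Fin 4 → Bool) : csgn i b = 1 ∨ csgn i b = -1 := by
  revert i b; decide

theorem csgn_sep (b b' : Fin 4 → Bool) (h : b ≠ b') : ∃ i, csgn i b * csgn i b' = -1 := by
  revert b b'; decide

theorem csgn_ne (b : Fin 4 → Bool) (h : b ≠ fun _ => false) : ∃ i, csgn i b = -1 := by
  revert b; decide

variable {A : Type*} [Ring A] [Algebra ℝ A]

/-- the factor -/
def PP (X : Fin 4 → A) (j : Fin 4) (b : Bool) : A := if b = true then X j else 1

/-- the products -/
def EE (X : Fin 4 → A) (b : Fin 4 → Bool) : A :=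
  PP X 0 (b 0) * PP X 1 (b 1) * PP X 2 (b 2) * PP X 3 (b 3)

theorem PP_comm {X : Fin 4 → A} (hac : ∀ i j, i ≠ j → X i * X j = -(X j * X i)) (i j : Fin 4)
    (b : Bool) : X i * PP X j b = (csg i j b : ℝ) • (PP X j b * X i) := by
  unfold PP csg
  by_cases hb : b = true
  · by_cases hij : j = i
    · subst hij; simp [hb]
    · simp [hb, hij, hac i j (fun h => hij h.symm)]
  · simp [hb]

theorem EE_comm {X : Fin 4 → A} (hac : ∀ i j, i ≠ j → X i * X j = -(X j * X i)) (i : Fin 4)
    (b : Fin 4 → Bool) : X i * EE X b = (csgn i b : ℝ) • (EE X b * X i) := by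
  have h0 := PP_comm hac i 0 (b 0)
  have h1 := PP_comm hac i 1 (b 1)
  have h2 := PP_comm hac i 2 (b 2)
  have h3 := PP_comm hac i 3 (b 3)
  unfold EE csgn
  calc X i * (PP X 0 (b 0) * PP X 1 (b 1) * PP X 2 (b 2) * PP X 3 (b 3)) =
      ((X i * PP X 0 (b 0)) * PP X 1 (b 1) * PP X 2 (b 2) * PP X 3 (b 3)) := by
        simp only [mul_assoc]
    _ = (csg i 0 (b 0) : ℝ) • (PP X 0 (b 0) * (X i * PP X 1 (b 1)) * PP X 2 (b 2) *
        PP X 3 (b 3)) := by
        rw [h0]; simp only [smul_mul_assoc, mul_assoc]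
    _ = (csg i 0 (b 0) : ℝ) • (csg i 1 (b 1) : ℝ) • (PP X 0 (b 0) * PP X 1 (b 1) *
        (X i * PP X 2 (b 2)) * PP X 3 (b 3)) := by
        rw [h1]; simp only [smul_mul_assoc, mul_smul_comm, mul_assoc]
    _ = (csg i 0 (b 0) : ℝ) • (csg i 1 (b 1) : ℝ) • (csg i 2 (b 2) : ℝ) • (PP X 0 (b 0) *
        PP X 1 (b 1) * PP X 2 (b 2) * (X i * PP X 3 (b 3))) := by
        rw [h2]; simp only [smul_mul_assoc, mul_smul_comm, mul_assoc]
    _ = _ := by
        rw [h3]
        simp only [mul_smul_comm, smul_smul]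
        push_cast
        simp only [mul_assoc]

theorem EE_conj {X : Fin 4 → A} (hsq : ∀ i, X i * X i = 1)
    (hac : ∀ i j, i ≠ j → X i * X j = -(X j * X i)) (i : Fin 4)
    (b : Fin 4 → Bool) : X i * EE X b * X i = (csgn i b : ℝ) • EE X b := by
  rw [EE_comm hac, smul_mul_assoc, mul_assoc, hsq, mul_one]

/-- the hypotheses on the trace and the involution -/
structure TrStar (t : A →ₗ[ℝ] ℝ) (st : A →ₗ[ℝ] A) : Prop where
  comm : ∀ x y, t (x * y) = t (y * x)
  mul : ∀ x y, st (x * y) = st y * st x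
  one : st 1 = 1
  pos : ∀ x, x ≠ 0 → 0 < t (x * st x)

omit [Algebra ℝ A] in
theorem EE_ne_zero [Nontrivial A] {X : Fin 4 → A} (hsq : ∀ i, X i * X i = 1)
    (b : Fin 4 → Bool) : EE X b ≠ 0 := by
  have h : ∀ j b, IsUnit (PP X j b) := by
    intro j b
    unfold PP
    split_ifs
    · exact ⟨⟨X j, X j, hsq j, hsq j⟩, rfl⟩
    · exact isUnit_one
  exact (((h 0 (b 0)).mul (h 1 (b 1))).mul (h 2 (b 2))).mul (h 3 (b 3)) |>.ne_zero

theorem EE_orth {t : A →ₗ[ℝ] ℝ} {st : A →ₗ[ℝ] A} (H : TrStar t st) {X : Fin 4 → A}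
    (hst : ∀ i, st (X i) = X i) (hsq : ∀ i, X i * X i = 1)
    (hac : ∀ i j, i ≠ j → X i * X j = -(X j * X i)) (b b' : Fin 4 → Bool) (h : b ≠ b') :
    t (EE X b * st (EE X b')) = 0 := by
  obtain ⟨i, hi⟩ := csgn_sep b b' h
  have h1 := EE_conj hsq hac i b
  have h2 := EE_conj hsq hac i b'
  have h3 : X i * st (EE X b') * X i = (csgn i b' : ℝ) • st (EE X b') := by
    have := congrArg st h2
    rw [H.mul, H.mul, hst, map_smul] at this
    rw [mul_assoc]
    exact this
  have h4 : t (X i * EE X b * X i * (X i * st (EE X b') * X i)) = t (EE X b * st (EE X b')) := by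
    have : X i * EE X b * X i * (X i * st (EE X b') * X i) =
        X i * (EE X b * st (EE X b') * X i) := by
      calc X i * EE X b * X i * (X i * st (EE X b') * X i) =
          X i * EE X b * (X i * X i) * st (EE X b') * X i := by simp only [mul_assoc]
        _ = _ := by rw [hsq, mul_one]; simp only [mul_assoc]
    rw [this, H.comm, mul_assoc, hsq, mul_one]
  rw [h1, h3, smul_mul_smul_comm, map_smul] at h4
  have h5 : ((csgn i b : ℝ) * (csgn i b' : ℝ)) = -1 := by exact_mod_cast hi
  rw [h5, smul_eq_mul] at h4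
  linarith

/-- C3 -/
theorem commutant_scalar [Nontrivial A] [FiniteDimensional ℝ A] (hfin : finrank ℝ A = 16)
    {t : A →ₗ[ℝ] ℝ} {st : A →ₗ[ℝ] A} (H : TrStar t st) {X : Fin 4 → A}
    (hst : ∀ i, st (X i) = X i) (hsq : ∀ i, X i * X i = 1)
    (hac : ∀ i j, i ≠ j → X i * X j = -(X j * X i)) (c : A) (hc : ∀ i, X i * c = c * X i) :
    ∃ r : ℝ, c = algebraMap ℝ A r := by
  have horth := fun b b' h => EE_orth H hst hsq hac b b' h
  -- linear independence
  have hli : LinearIndependent ℝ (EE X) := by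
    rw [Fintype.linearIndependent_iff]
    intro g hg b'
    have h1 : t ((∑ b, g b • EE X b) * st (EE X b')) = 0 := by rw [hg]; simp
    rw [Finset.sum_mul, map_sum, Finset.sum_eq_single b'] at h1
    · rw [smul_mul_assoc, map_smul, smul_eq_mul] at h1
      have h2 := H.pos _ (EE_ne_zero (X := X) hsq b')
      rcases mul_eq_zero.mp h1 with h3 | h3
      · exact h3
      · exact absurd h3 h2.ne'
    · intro b _ hb
      rw [smul_mul_assoc, map_smul, horth b b' hb, smul_zero]
    · intro h; exact absurd (Finset.mem_univ _) h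
  have hspan : Submodule.span ℝ (Set.range (EE X)) = ⊤ := by
    apply hli.span_eq_top_of_card_eq_finrank'
    rw [hfin]
    simp
  -- `c` is orthogonal to the products
  have hco : ∀ c : A, (∀ i, X i * c = c * X i) → ∀ b, (b ≠ fun _ => false) →
      t (c * st (EE X b)) = 0 := by
    intro c hc b hb
    obtain ⟨i, hi⟩ := csgn_ne b hb
    have h2 := EE_conj hsq hac i b
    have h3 : X i * st (EE X b) * X i = (csgn i b : ℝ) • st (EE X b) := by
      have := congrArg st h2
      rw [H.mul, H.mul, hst, map_smul] at this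
      rw [mul_assoc]
      exact this
    have h4 : t (c * (X i * st (EE X b) * X i)) = t (c * st (EE X b)) := by
      calc t (c * (X i * st (EE X b) * X i)) = t ((c * X i * st (EE X b)) * X i) := by
            simp only [mul_assoc]
        _ = t (X i * (c * X i * st (EE X b))) := H.comm _ _
        _ = t ((X i * c) * X i * st (EE X b)) := by simp only [mul_assoc]
        _ = t (c * (X i * X i) * st (EE X b)) := by rw [hc i]; simp only [mul_assoc]
        _ = _ := by rw [hsq, mul_one]
    rw [h3, hi, mul_smul_comm, map_smul, smul_eq_mul] at h4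
    push_cast at h4
    linarith
  have hE0 : EE X (fun _ => false) = 1 := by simp [EE, PP]
  have ht1 : 0 < t 1 := by
    have := H.pos 1 one_ne_zero
    rwa [H.one, mul_one] at this
  obtain ⟨r, hr⟩ : ∃ r, r = t c / t 1 := ⟨_, rfl⟩
  have horc : ∀ b, t ((c - algebraMap ℝ A r) * st (EE X b)) = 0 := by
    intro b
    by_cases hb : b = fun _ => false
    · rw [hb, hE0, H.one, mul_one, map_sub, Algebra.algebraMap_eq_smul_one, map_smul, hr,
        smul_eq_mul, div_mul_cancel₀ _ ht1.ne', sub_self]
    · apply hco _ _ b hb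
      intro i
      rw [mul_sub, sub_mul, hc i, Algebra.commutes]
  refine ⟨r, ?_⟩
  by_contra hne
  have hne' : c - algebraMap ℝ A r ≠ 0 := sub_ne_zero.mpr hne
  have hall : ∀ y : A, t ((c - algebraMap ℝ A r) * st y) = 0 := by
    intro y
    have hy : y ∈ Submodule.span ℝ (Set.range (EE X)) := by rw [hspan]; trivial
    induction hy using Submodule.span_induction with
    | mem y hy => obtain ⟨b, rfl⟩ := hy; exact horc b
    | zero => simp
    | add u v _ _ hu hv => rw [map_add, mul_add, map_add, hu, hv, add_zero]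
    | smul a u _ hu => rw [map_smul, mul_smul_comm, map_smul, hu, smul_zero]
  have := H.pos _ hne'
  rw [hall] at this
  exact lt_irrefl _ this

end Pool.Agent.Helper84.NG
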