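import Mathlib
import Pool.Agent.Helper84.NG.Cliff

/-!
MP_0fb3e0_gt, part CA. C2: if `t ((C - S X) c (C + S X) c*)` is bounded in `s` (`C = cosh s`,
`S = sinh s`, `X* = X`, `X² = 1`) then `c` commutes with `X`.
-/

set_option autoImplicit false

namespace Pool.Agent.Helper84.NG

variable {A : Type*} [Ring A] [Algebra ℝ A]

theorem comm_of_bounded {t : A →ₗ[ℝ] ℝ} {st : A →ₗ[ℝ] A} (H : TrStar t st) {X : A}
    (hst : st X = X) (hsq : X * X = 1) (c : A) (M : ℝ)
    (hM : ∀ s : ℝ, t ((Real.cosh s • (1 : A) - Real.sinh s • X) * c *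
      (Real.cosh s • (1 : A) + Real.sinh s • X) * st c) ≤ M) : X * c = c * X := by
  have hexp : ∀ s : ℝ, t ((Real.cosh s • (1 : A) - Real.sinh s • X) * c *
      (Real.cosh s • (1 : A) + Real.sinh s • X) * st c) =
      Real.cosh s ^ 2 * t (c * st c) + Real.cosh s * Real.sinh s * t ((c * X - X * c) * st c) -
        Real.sinh s ^ 2 * t (X * c * X * st c) := by
    intro s
    have : (Real.cosh s • (1 : A) - Real.sinh s • X) * c *
      (Real.cosh s • (1 : A) + Real.sinh s • X) * st c =
        (Real.cosh s ^ 2) • (c * st c) + (Real.cosh s * Real.sinh s) • ((c * X - X * c) * st c) -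
        (Real.sinh s ^ 2) • (X * c * X * st c) := by
      simp only [sub_mul, mul_add, add_mul, smul_mul_assoc, mul_smul_comm, one_mul,
        mul_one, smul_sub, smul_smul]
      rw [mul_comm (Real.sinh s) (Real.cosh s), ← pow_two, ← pow_two]
      abel
    rw [this, map_sub, map_add, map_smul, map_smul, map_smul, smul_eq_mul, smul_eq_mul,
      smul_eq_mul]
  obtain ⟨a, ha⟩ : ∃ a, a = t (c * st c) := ⟨_, rfl⟩
  obtain ⟨b, hb⟩ : ∃ b, b = t (X * c * X * st c) := ⟨_, rfl⟩
  obtain ⟨m, hm⟩ : ∃ m, m = t ((c * X - X * c) * st c) := ⟨_, rfl⟩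
  have hbd : ∀ s : ℝ, a + Real.sinh s ^ 2 * (a - b) ≤ M := by
    intro s
    have h1 := hM s
    have h2 := hM (-s)
    rw [hexp, ← ha, ← hb, ← hm] at h1 h2
    rw [Real.cosh_neg, Real.sinh_neg] at h2
    have h3 := Real.cosh_sq s
    rw [h3] at h1 h2
    have h4 : (-Real.sinh s) ^ 2 = Real.sinh s ^ 2 := by ring
    rw [h4] at h2
    linarith
  have hab : a - b ≤ 0 := by
    by_contra hcon
    push Not at hcon
    obtain ⟨s, hs⟩ := Real.sinh_surjective (Real.sqrt ((|M| + |a| + 1) / (a - b)))
    have h1 := hbd s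
    rw [hs, Real.sq_sqrt (by positivity), div_mul_cancel₀ _ hcon.ne'] at h1
    have h2 := le_abs_self M
    have h3 := neg_abs_le a
    linarith
  have hd : t ((c - X * c * X) * st (c - X * c * X)) = 2 * (a - b) := by
    have h1 : st (c - X * c * X) = st c - X * st c * X := by
      rw [map_sub, H.mul, H.mul, hst, mul_assoc]
    have h2 : (c - X * c * X) * st (c - X * c * X) =
        c * st c - c * X * st c * X - X * c * X * st c + X * (c * st c * X) := by
      rw [h1]
      have h3 : X * c * X * (X * st c * X) = X * (c * st c * X) := by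
        calc X * c * X * (X * st c * X) = X * c * (X * X) * st c * X := by
              simp only [mul_assoc]
          _ = _ := by rw [hsq, mul_one]; simp only [mul_assoc]
      rw [sub_mul, mul_sub, mul_sub, h3]
      simp only [mul_assoc]
      abel
    have h4 : t (c * X * st c * X) = b := by
      rw [H.comm, hb]
      simp only [mul_assoc]
    have h5 : t (X * (c * st c * X)) = a := by
      rw [H.comm, mul_assoc, hsq, mul_one, ha]
    rw [h2, map_add, map_sub, map_sub, h4, h5, ← ha, ← hb]
    ring
  have hz : c - X * c * X = 0 := by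
    by_contra hne
    have := H.pos _ hne
    rw [hd] at this
    linarith
  have hc : c = X * c * X := sub_eq_zero.mp hz
  calc X * c = X * (X * c * X) := by rw [← hc]
    _ = (X * X) * c * X := by simp only [mul_assoc]
    _ = c * X := by rw [hsq, one_mul]

end Pool.Agent.Helper84.NG
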