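import Mathlib
import Pool.Agent.Helper84.NG.Grow

/-!
MP_0fb3e0_gt, part CA. C1: `p` with `p² = 2 t p - 1` (`t > 0`) is the square of the self-adjoint
`g = (p + 1) / sqrt (2 t + 2)`, and the `g⁻¹ P i g⁻¹` anticommute and have square 1.
-/

set_option autoImplicit false

namespace Pool.Agent.Helper84.NG

variable {A : Type*} [Ring A] [Algebra ℝ A]

/-- the square root of `p` and its inverse -/
theorem exists_sqrt (st : A →ₗ[ℝ] A) (h1 : st 1 = 1) {p : A} (hp : st p = p) {τ : ℝ} (hτ : 0 < τ)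
    (hpp : p * p = (2 * τ) • p - (1 : A)) :
    ∃ g g' : A, g * g = p ∧ g * g' = 1 ∧ g' * g = 1 ∧ st g = g ∧ st g' = g' := by
  obtain ⟨r, hr⟩ : ∃ r, r = Real.sqrt (2 * τ + 2) := ⟨_, rfl⟩
  have hr2 : r * r = 2 * τ + 2 := by rw [hr]; exact Real.mul_self_sqrt (by linarith)
  have hr0 : r ≠ 0 := by
    intro h
    rw [h] at hr2
    linarith
  refine ⟨r⁻¹ • (p + 1), r⁻¹ • ((2 * τ + 1) • (1 : A) - p), ?_, ?_, ?_, ?_, ?_⟩
  · rw [smul_mul_smul_comm]
    have : (p + 1) * (p + 1) = (2 * τ + 2) • p := by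
      rw [add_mul, mul_add, hpp, mul_one, one_mul, add_smul, two_smul]
      abel
    rw [this, smul_smul]
    have : r⁻¹ * r⁻¹ * (2 * τ + 2) = 1 := by
      rw [← hr2]; field_simp
    rw [this, one_smul]
  · rw [smul_mul_smul_comm]
    have : (p + 1) * ((2 * τ + 1) • (1 : A) - p) = (2 * τ + 2) • (1 : A) := by
      rw [add_mul, mul_sub, hpp, one_mul, mul_smul_comm, mul_one, add_smul, add_smul,
        one_smul, one_smul, add_smul, two_smul]
      abel
    rw [this, smul_smul]
    have : r⁻¹ * r⁻¹ * (2 * τ + 2) = 1 := by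
      rw [← hr2]; field_simp
    rw [this, one_smul]
  · rw [smul_mul_smul_comm]
    have : ((2 * τ + 1) • (1 : A) - p) * (p + 1) = (2 * τ + 2) • (1 : A) := by
      rw [sub_mul, mul_add, mul_one, smul_mul_assoc, one_mul, mul_add, hpp, mul_one,
        add_smul, add_smul, one_smul, one_smul, add_smul, two_smul]
      abel
    rw [this, smul_smul]
    have : r⁻¹ * r⁻¹ * (2 * τ + 2) = 1 := by
      rw [← hr2]; field_simp
    rw [this, one_smul]
  · rw [map_smul, map_add, hp, h1]
  · rw [map_smul, map_sub, map_smul, hp, h1]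

/-- conjugating by `g⁻¹` -/
theorem conj_sq {p g g' P Q : A} {τ a : ℝ} (hgg : g * g = p) (hgg' : g * g' = 1)
    (hg'g : g' * g = 1) (hpp : p * p = (2 * τ) • p - (1 : A))
    (hPp : P * p + p * P = (2 * a) • p + (2 * τ) • P) :
    (g' * P * g') * (g' * Q * g') = g' * (p * (P - (2 * a) • (1 : A)) * Q) * g' := by
  have hpg : p * (g' * g') = 1 := by
    rw [← hgg]
    calc g * g * (g' * g') = g * (g * g') * g' := by simp only [mul_assoc]
      _ = 1 := by rw [hgg', mul_one, hgg']
  have hinv : p * ((2 * τ) • (1 : A) - p) = 1 := by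
    rw [mul_sub, hpp, mul_smul_comm, mul_one]
    abel
  have hgp : (g' * g') * p = 1 := by
    rw [← hgg]
    calc g' * g' * (g * g) = g' * (g' * g) * g := by simp only [mul_assoc]
      _ = 1 := by rw [hg'g, mul_one, hg'g]
  have hg2 : g' * g' = (2 * τ) • (1 : A) - p := by
    calc g' * g' = (g' * g') * (p * ((2 * τ) • (1 : A) - p)) := by rw [hinv, mul_one]
      _ = ((g' * g') * p) * ((2 * τ) • (1 : A) - p) := by simp only [mul_assoc]
      _ = _ := by rw [hgp, one_mul]
  have h1 : P * (g' * g') = p * (P - (2 * a) • (1 : A)) := by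
    rw [hg2, mul_sub, mul_sub, mul_smul_comm, mul_smul_comm, mul_one, mul_one]
    have h2 : P * p = (2 * a) • p + (2 * τ) • P - p * P := by rw [← hPp]; abel
    rw [h2]
    abel
  calc (g' * P * g') * (g' * Q * g') = g' * (P * (g' * g')) * Q * g' := by
        simp only [mul_assoc]
    _ = _ := by rw [h1]; simp only [mul_assoc]

end Pool.Agent.Helper84.NG
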