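import Mathlib
import Pool.Agent.Helper77.T2.Hyp

/-!
MP_0fb3e0_gt, part CA. The normal vector of a linear isometric embedding `R^(m,1) → R^(m+1,1)` and
the action of the stabilizer on it.
-/

set_option autoImplicit false

namespace Pool.Agent.Helper84.NG

open H77T2

variable {n m : ℕ}

theorem mink_comm (v w : Fin (n + 1) → ℝ) : mink n v w = mink n w v := by
  unfold mink; congr 1
  · ring
  · exact Finset.sum_congr rfl fun i _ => mul_comm _ _

theorem mink_add_left (u v w : Fin (n + 1) → ℝ) : mink n (u + v) w = mink n u w + mink n v w := by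
  unfold mink
  simp only [Pi.add_apply, add_mul, Finset.sum_add_distrib]
  ring

theorem mink_smul_left (a : ℝ) (v w : Fin (n + 1) → ℝ) : mink n (a • v) w = a * mink n v w := by
  unfold mink
  simp only [Pi.smul_apply, smul_eq_mul, mul_sub, Finset.mul_sum]
  congr 1
  · ring
  · exact Finset.sum_congr rfl fun i _ => by ring

theorem mink_add_right (u v w : Fin (n + 1) → ℝ) : mink n u (v + w) = mink n u v + mink n u w := by
  rw [mink_comm, mink_add_left, mink_comm v, mink_comm w]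

theorem mink_smul_right (a : ℝ) (v w : Fin (n + 1) → ℝ) : mink n v (a • w) = a * mink n v w := by
  rw [mink_comm, mink_smul_left, mink_comm]

theorem mink_zero_left (w : Fin (n + 1) → ℝ) : mink n 0 w = 0 := by
  have := mink_smul_left 0 w w
  rwa [zero_smul, zero_mul] at this

theorem mink_single_zero (v : Fin (n + 1) → ℝ) : mink n v (Pi.single 0 1) = v 0 := by
  unfold mink
  simp

theorem mink_single_succ (v : Fin (n + 1) → ℝ) (i : Fin n) :
    mink n v (Pi.single i.succ 1) = -v i.succ := by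
  unfold mink
  have h1 : (Pi.single i.succ (1 : ℝ) : Fin (n + 1) → ℝ) 0 = 0 :=
    Pi.single_eq_of_ne (Fin.succ_ne_zero i).symm _
  rw [h1, mul_zero, zero_sub, Finset.sum_eq_single i]
  · simp
  · intro j _ hj
    rw [Pi.single_eq_of_ne (fun h => hj (Fin.succ_injective _ h)), mul_zero]
  · intro h; exact absurd (Finset.mem_univ _) h

theorem eq_zero_of_mink (v : Fin (n + 1) → ℝ) (h : ∀ w, mink n v w = 0) : v = 0 := by
  funext j
  refine Fin.cases ?_ (fun i => ?_) j
  · have := h (Pi.single 0 1)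
    rw [mink_single_zero] at this
    simpa using this
  · have := h (Pi.single i.succ 1)
    rw [mink_single_succ] at this
    simpa using this

/-- the form as a bilinear map -/
def minkB (n : ℕ) : (Fin (n + 1) → ℝ) →ₗ[ℝ] (Fin (n + 1) → ℝ) →ₗ[ℝ] ℝ :=
  LinearMap.mk₂ ℝ (mink n) mink_add_left mink_smul_left mink_add_right mink_smul_right

theorem inj_of_mink {φ : (Fin (m + 1) → ℝ) →ₗ[ℝ] (Fin (n + 1) → ℝ)}
    (hφ : ∀ x y, mink n (φ x) (φ y) = mink m x y) : Function.Injective φ := by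
  rw [← LinearMap.ker_eq_bot, LinearMap.ker_eq_bot']
  intro x hx
  apply eq_zero_of_mink
  intro w
  rw [← hφ, hx, mink_zero_left]

/-- the normal vector -/
theorem exists_normal {φ : (Fin (m + 1) → ℝ) →ₗ[ℝ] (Fin (m + 2) → ℝ)}
    (hφ : ∀ x y, mink (m + 1) (φ x) (φ y) = mink m x y) :
    ∃ v : Fin (m + 2) → ℝ, mink (m + 1) v v ≠ 0 ∧ (∀ y, mink (m + 1) v (φ y) = 0) ∧
      ∀ x, ∃ (y : Fin (m + 1) → ℝ) (a : ℝ), x = φ y + a • v := by
  let L : (Fin (m + 2) → ℝ) →ₗ[ℝ] (Fin (m + 1) → ℝ) :=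
    LinearMap.pi fun i => (minkB (m + 1)).flip (φ (Pi.single i 1))
  have hker : LinearMap.ker L ≠ ⊥ := by
    apply LinearMap.ker_ne_bot_of_finrank_lt
    simp
  obtain ⟨v, hv, hv0⟩ := Submodule.exists_mem_ne_zero_of_ne_bot hker
  have hv1 : ∀ i, mink (m + 1) v (φ (Pi.single i 1)) = 0 := by
    intro i
    have := congrFun (LinearMap.mem_ker.mp hv) i
    simpa [L, minkB] using this
  have hv2 : ∀ y, mink (m + 1) v (φ y) = 0 := by
    intro y
    have h1 : (minkB (m + 1) v).comp φ = 0 := by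
      apply (Pi.basisFun ℝ (Fin (m + 1))).ext
      intro i
      simpa [minkB] using hv1 i
    have := LinearMap.congr_fun h1 y
    simpa [minkB] using this
  have hinj : ∀ (y : Fin (m + 1) → ℝ) (a : ℝ), φ y + a • v = 0 → y = 0 ∧ a = 0 := by
    intro y a h
    have hy : y = 0 := by
      apply eq_zero_of_mink
      intro w
      have h1 : mink (m + 1) (φ y + a • v) (φ w) = 0 := by rw [h, mink_zero_left]
      rwa [mink_add_left, mink_smul_left, hv2, mul_zero, add_zero, hφ] at h1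
    refine ⟨hy, ?_⟩
    rw [hy, map_zero, zero_add] at h
    exact (smul_eq_zero.mp h).resolve_right hv0
  let Φ : ((Fin (m + 1) → ℝ) × ℝ) →ₗ[ℝ] (Fin (m + 2) → ℝ) :=
    φ.coprod (LinearMap.toSpanSingleton ℝ _ v)
  have hΦ : Function.Surjective Φ := by
    rw [← LinearMap.injective_iff_surjective_of_finrank_eq_finrank (by simp)]
    rw [← LinearMap.ker_eq_bot, LinearMap.ker_eq_bot']
    rintro ⟨y, a⟩ h
    have := hinj y a (by simpa [Φ] using h)
    rw [this.1, this.2]
    rfl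
  have hspan : ∀ x, ∃ (y : Fin (m + 1) → ℝ) (a : ℝ), x = φ y + a • v := by
    intro x
    obtain ⟨⟨y, a⟩, h⟩ := hΦ x
    exact ⟨y, a, by rw [← h]; simp [Φ]⟩
  refine ⟨v, ?_, hv2, hspan⟩
  intro hvv
  apply hv0
  apply eq_zero_of_mink
  intro w
  obtain ⟨y, a, rfl⟩ := hspan w
  rw [mink_add_right, hv2, mink_smul_right, hvv, mul_zero, add_zero]

/-- the stabilizer acts on the normal vector by a sign -/
theorem normal_sign {φ : (Fin (m + 1) → ℝ) →ₗ[ℝ] (Fin (m + 2) → ℝ)}
    (hφ : ∀ x y, mink (m + 1) (φ x) (φ y) = mink m x y) {v : Fin (m + 2) → ℝ}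
    (hvv : mink (m + 1) v v ≠ 0) (hv : ∀ y, mink (m + 1) v (φ y) = 0)
    (hspan : ∀ x, ∃ (y : Fin (m + 1) → ℝ) (a : ℝ), x = φ y + a • v)
    (M : (Fin (m + 2) → ℝ) →ₗ[ℝ] (Fin (m + 2) → ℝ))
    (hM : ∀ x y, mink (m + 1) (M x) (M y) = mink (m + 1) x y)
    (hMφ : ∀ y, ∃ y', M (φ y) = φ y') : ∃ a : ℝ, a * a = 1 ∧ M v = a • v := by
  have hMinj : Function.Injective M := inj_of_mink hM
  have hmap : Submodule.map M (LinearMap.range φ) = LinearMap.range φ := by
    apply Submodule.eq_of_le_of_finrank_eq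
    · rintro _ ⟨_, ⟨y, rfl⟩, rfl⟩
      obtain ⟨y', hy'⟩ := hMφ y
      exact ⟨y', hy'.symm⟩
    · exact (Submodule.equivMapOfInjective M hMinj _).symm.finrank_eq
  obtain ⟨y₀, a, h⟩ := hspan (M v)
  have hy₀ : y₀ = 0 := by
    apply eq_zero_of_mink
    intro w
    have h1 : φ w ∈ Submodule.map M (LinearMap.range φ) := by rw [hmap]; exact ⟨w, rfl⟩
    obtain ⟨_, ⟨u, rfl⟩, hu⟩ := h1
    have h2 : mink (m + 1) (M v) (φ w) = 0 := by rw [← hu, hM, hv]
    rwa [h, mink_add_left, mink_smul_left, hv, mul_zero, add_zero, hφ] at h2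
  rw [hy₀, map_zero, zero_add] at h
  refine ⟨a, ?_, h⟩
  have h3 := hM v v
  rw [h, mink_smul_left, mink_smul_right, ← mul_assoc] at h3
  exact mul_right_cancel₀ hvv (by rw [h3, one_mul])

end Pool.Agent.Helper84.NG
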