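import Mathlib
import Pool.Agent.Helper84.NG.Conj
import Pool.Agent.Helper84.NG.Normal

/-!
MP_0fb3e0_gt, part CA. If `f_c(h) = t (h⁻¹ c h c*)` is bounded on a totally geodesic hyperplane of
`H^5`, then `c` is a real scalar.
-/

set_option autoImplicit false

namespace Pool.Agent.Helper84.NG

open H77T2

variable {A : Type*} [Ring A] [Algebra ℝ A] {n : ℕ}

/-- the self-adjoint elements as Minkowski space -/
structure Model (n : ℕ) (t : A →ₗ[ℝ] ℝ) (st : A →ₗ[ℝ] A) (ψ : (Fin (n + 1) → ℝ) →ₗ[ℝ] A) :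
    Prop extends TrStar t st where
  stψ : ∀ x, st (ψ x) = ψ x
  quad : ∀ x, ψ x * ψ x = (2 * x 0) • ψ x - (mink n x x) • (1 : A)

theorem Model.polar {t : A →ₗ[ℝ] ℝ} {st : A →ₗ[ℝ] A} {ψ : (Fin (n + 1) → ℝ) →ₗ[ℝ] A}
    (H : Model n t st ψ) (x y : Fin (n + 1) → ℝ) :
    ψ x * ψ y + ψ y * ψ x = (2 * x 0) • ψ y + (2 * y 0) • ψ x - (2 * mink n x y) • (1 : A) := by
  have h1 := H.quad (x + y)
  rw [map_add, add_mul, mul_add, mul_add, H.quad x, H.quad y, mink_add_left, mink_add_right,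
    mink_add_right, mink_comm y x, Pi.add_apply] at h1
  have h2 : ψ x * ψ y + ψ y * ψ x = (2 * (x 0 + y 0)) • (ψ x + ψ y) -
      (mink n x x + mink n x y + (mink n x y + mink n y y)) • (1 : A) -
      ((2 * x 0) • ψ x - mink n x x • (1 : A)) - ((2 * y 0) • ψ y - mink n y y • (1 : A)) := by
    rw [← h1]; abel
  rw [h2]
  module

theorem inv_left {t : A →ₗ[ℝ] ℝ} {st : A →ₗ[ℝ] A} {ψ : (Fin (n + 1) → ℝ) →ₗ[ℝ] A}
    (H : Model n t st ψ) (x : Fin (n + 1) → ℝ) :
    ((2 * x 0) • (1 : A) - ψ x) * ψ x = (mink n x x) • (1 : A) := by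
  rw [sub_mul, H.quad x, smul_mul_assoc, one_mul]
  abel

theorem inv_right {t : A →ₗ[ℝ] ℝ} {st : A →ₗ[ℝ] A} {ψ : (Fin (n + 1) → ℝ) →ₗ[ℝ] A}
    (H : Model n t st ψ) (x : Fin (n + 1) → ℝ) :
    ψ x * ((2 * x 0) • (1 : A) - ψ x) = (mink n x x) • (1 : A) := by
  rw [mul_sub, H.quad x, mul_smul_comm, mul_one]
  abel

/-- the points of the geodesic -/
theorem geo_mem {m : ℕ} (i : Fin m) (s : ℝ) :
    (Real.cosh s • Pi.single 0 1 + Real.sinh s • Pi.single i.succ 1 : Fin (m + 1) → ℝ) ∈ Hyp m := by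
  constructor
  · rw [mink_add_left, mink_add_right, mink_add_right, mink_smul_left, mink_smul_left,
      mink_smul_right, mink_smul_right, mink_smul_right, mink_smul_left, mink_smul_right,
      mink_single_zero, mink_single_succ, mink_single_succ, mink_single_zero]
    have h1 : (Pi.single (Fin.succ i) (1 : ℝ) : Fin (m + 1) → ℝ) 0 = 0 :=
      Pi.single_eq_of_ne (Fin.succ_ne_zero i).symm _
    have h2 : (Pi.single (0 : Fin (m + 1)) (1 : ℝ) : Fin (m + 1) → ℝ) (Fin.succ i) = 0 :=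
      Pi.single_eq_of_ne (Fin.succ_ne_zero i) _
    rw [h1, h2, Pi.single_eq_same, Pi.smul_apply, Pi.single_eq_same, smul_eq_mul]
    have := Real.cosh_sq s
    nlinarith
  · have h1 : (Pi.single (Fin.succ i) (1 : ℝ) : Fin (m + 1) → ℝ) 0 = 0 :=
      Pi.single_eq_of_ne (Fin.succ_ne_zero i).symm _
    simp only [Pi.add_apply, Pi.smul_apply, h1, Pi.single_eq_same, smul_eq_mul, mul_one,
      mul_zero, add_zero]
    exact Real.cosh_pos s

/-- the boundedness of `f_c` on the hyperplane -/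
theorem scalar_of_bounded [Nontrivial A] [FiniteDimensional ℝ A]
    (hfin : Module.finrank ℝ A = 16) {t : A →ₗ[ℝ] ℝ} {st : A →ₗ[ℝ] A}
    {ψ : (Fin (5 + 1) → ℝ) →ₗ[ℝ] A} (H : Model 5 t st ψ)
    {φ : (Fin (4 + 1) → ℝ) →ₗ[ℝ] (Fin (5 + 1) → ℝ)}
    (hφ : ∀ x y, mink 5 (φ x) (φ y) = mink 4 x y) (hpos : 0 < φ (Pi.single 0 1) 0) (c : A) (M : ℝ)
    (hM : ∀ y ∈ Hyp 4, t (((2 * φ y 0) • (1 : A) - ψ (φ y)) * c * ψ (φ y) * st c) ≤ M) :
    ∃ r : ℝ, c = algebraMap ℝ A r := by
  obtain ⟨p, hp⟩ : ∃ p, p = ψ (φ (Pi.single 0 1)) := ⟨_, rfl⟩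
  obtain ⟨τ, hτ⟩ : ∃ τ, τ = φ (Pi.single 0 1) 0 := ⟨_, rfl⟩
  rw [← hτ] at hpos
  have hpp : p * p = (2 * τ) • p - (1 : A) := by
    rw [hp, H.quad, hφ, mink_single_zero, Pi.single_eq_same, one_smul, hτ]
  obtain ⟨g, g', hgg, hgg', hg'g, hsg, hsg'⟩ := exists_sqrt st H.one (p := p)
    (by rw [hp]; exact H.stψ _) hpos hpp
  obtain ⟨P, hP⟩ : ∃ P : Fin 4 → A, P = fun i => ψ (φ (Pi.single i.succ 1)) := ⟨_, rfl⟩
  obtain ⟨a, ha⟩ : ∃ a : Fin 4 → ℝ, a = fun i => φ (Pi.single i.succ 1) 0 := ⟨_, rfl⟩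
  have hs0 : ∀ i : Fin 4, (Pi.single (Fin.succ i) (1 : ℝ) : Fin (4 + 1) → ℝ) 0 = 0 :=
    fun i => Pi.single_eq_of_ne (Fin.succ_ne_zero i).symm _
  have hPp : ∀ i, P i * p + p * P i = (2 * a i) • p + (2 * τ) • P i := by
    intro i
    have := H.polar (φ (Pi.single i.succ 1)) (φ (Pi.single 0 1))
    rw [hφ, mink_single_zero, hs0, mul_zero, zero_smul, sub_zero] at this
    rw [hP, hp, ha, hτ]
    exact this
  have hPP : ∀ i, P i * P i = (2 * a i) • P i + (1 : A) := by
    intro i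
    have := H.quad (φ (Pi.single i.succ 1))
    rw [hφ, mink_single_succ, Pi.single_eq_same, neg_smul, one_smul, sub_neg_eq_add] at this
    rw [hP, ha]
    exact this
  have hPQ : ∀ i j, i ≠ j → P i * P j + P j * P i = (2 * a i) • P j + (2 * a j) • P i := by
    intro i j hij
    have := H.polar (φ (Pi.single i.succ 1)) (φ (Pi.single j.succ 1))
    have h0 : (Pi.single (Fin.succ i) (1 : ℝ) : Fin (4 + 1) → ℝ) (Fin.succ j) = 0 :=
      Pi.single_eq_of_ne (fun h => hij (Fin.succ_injective _ h).symm) _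
    rw [hφ, mink_single_succ, h0, neg_zero, mul_zero, zero_smul, sub_zero] at this
    rw [hP, ha]
    exact this
  obtain ⟨X, hX⟩ : ∃ X : Fin 4 → A, X = fun i => g' * P i * g' := ⟨_, rfl⟩
  have hXX : ∀ i j, X i * X j = g' * (p * ((P i - (2 * a i) • (1 : A)) * P j)) * g' := by
    intro i j
    rw [hX]
    have := conj_sq (Q := P j) hgg hgg' hg'g hpp (hPp i)
    rw [this]
    simp only [mul_assoc]
  have hgpg : g' * p * g' = 1 := by
    rw [← hgg]
    calc g' * (g * g) * g' = (g' * g) * (g * g') := by simp only [mul_assoc]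
      _ = 1 := by rw [hg'g, hgg', mul_one]
  have hst : ∀ i, st (X i) = X i := by
    intro i
    rw [hX]
    simp only [H.mul, hsg']
    rw [hP, H.stψ]
    simp only [mul_assoc]
  have hsq : ∀ i, X i * X i = 1 := by
    intro i
    rw [hXX, sub_mul, hPP, smul_mul_assoc, one_mul]
    have : (2 * a i) • P i + 1 - (2 * a i) • P i = (1 : A) := by abel
    rw [this, mul_one, hgpg]
  have hac : ∀ i j, i ≠ j → X i * X j = -(X j * X i) := by
    intro i j hij
    rw [eq_neg_iff_add_eq_zero, hXX, hXX, ← add_mul, ← mul_add, ← mul_add, sub_mul, sub_mul,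
      smul_mul_assoc, smul_mul_assoc, one_mul, one_mul]
    have : P i * P j - (2 * a i) • P j + (P j * P i - (2 * a j) • P i) = 0 := by
      have h1 : P i * P j - (2 * a i) • P j + (P j * P i - (2 * a j) • P i) =
          (P i * P j + P j * P i) - ((2 * a i) • P j + (2 * a j) • P i) := by abel
      rw [h1, hPQ i j hij, sub_self]
    rw [this, mul_zero, mul_zero, zero_mul]
  -- the transformed element
  have hg2 : g' * g' = (2 * τ) • (1 : A) - p := by
    have hinv : p * ((2 * τ) • (1 : A) - p) = 1 := by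
      rw [mul_sub, hpp, mul_smul_comm, mul_one]
      abel
    have hgp : (g' * g') * p = 1 := by
      rw [← hgg]
      calc g' * g' * (g * g) = g' * (g' * g) * g := by simp only [mul_assoc]
        _ = 1 := by rw [hg'g, mul_one, hg'g]
    calc g' * g' = (g' * g') * (p * ((2 * τ) • (1 : A) - p)) := by rw [hinv, mul_one]
      _ = ((g' * g') * p) * ((2 * τ) • (1 : A) - p) := by simp only [mul_assoc]
      _ = _ := by rw [hgp, one_mul]
  have hgXg : ∀ i, g * X i * g = P i := by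
    intro i
    rw [hX]
    calc g * (g' * P i * g') * g = (g * g') * P i * (g' * g) := by simp only [mul_assoc]
      _ = P i := by rw [hgg', hg'g, one_mul, mul_one]
  have hg'Xg' : ∀ i, g' * X i * g' = P i - (2 * a i) • (1 : A) := by
    intro i
    rw [hX]
    have h1 : P i * (g' * g') = p * (P i - (2 * a i) • (1 : A)) := by
      rw [hg2, mul_sub, mul_sub, mul_smul_comm, mul_smul_comm, mul_one, mul_one]
      have h2 : P i * p = (2 * a i) • p + (2 * τ) • P i - p * P i := by rw [← hPp]; abel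
      rw [h2]
      abel
    calc g' * (g' * P i * g') * g' = (g' * g') * (P i * (g' * g')) := by
          simp only [mul_assoc]
      _ = (g' * (g' * p)) * (P i - (2 * a i) • (1 : A)) := by rw [h1]; simp only [mul_assoc]
      _ = _ := by
        have h3 : g' * (g' * p) = 1 := by
          rw [← hgg]
          calc g' * (g' * (g * g)) = g' * ((g' * g) * g) := by simp only [mul_assoc]
            _ = 1 := by rw [hg'g, one_mul, hg'g]
        rw [h3, one_mul]
  have hcomm : ∀ i, X i * (g' * c * g) = (g' * c * g) * X i := by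
    intro i
    apply comm_of_bounded H.toTrStar (hst i) (hsq i) _ M
    intro s
    have h1 := hM _ (geo_mem i s)
    have h2 : ψ (φ (Real.cosh s • Pi.single 0 1 + Real.sinh s • Pi.single i.succ 1)) =
        g * (Real.cosh s • (1 : A) + Real.sinh s • X i) * g := by
      rw [map_add, map_smul, map_smul, map_add, map_smul, map_smul, mul_add, add_mul,
        mul_smul_comm, mul_smul_comm, smul_mul_assoc, smul_mul_assoc, mul_one, hgg, hgXg, hp, hP]
    have h3 : (2 * φ (Real.cosh s • Pi.single 0 1 + Real.sinh s • Pi.single i.succ 1) 0) •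
        (1 : A) - ψ (φ (Real.cosh s • Pi.single 0 1 + Real.sinh s • Pi.single i.succ 1)) =
        g' * (Real.cosh s • (1 : A) - Real.sinh s • X i) * g' := by
      rw [map_add, map_smul, map_smul, map_add, map_smul, map_smul, Pi.add_apply, Pi.smul_apply,
        Pi.smul_apply, mul_sub, sub_mul,
        mul_smul_comm, mul_smul_comm, smul_mul_assoc, smul_mul_assoc, mul_one, hg2, hg'Xg']
      rw [hp, hP, ha, hτ]
      simp only [smul_eq_mul]
      module
    rw [h3, h2] at h1
    refine le_trans (le_of_eq ?_) h1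
    have h4 : st (g' * c * g) = g * st c * g' := by
      rw [H.mul, H.mul, hsg, hsg', mul_assoc]
    rw [h4]
    obtain ⟨U, hU⟩ : ∃ U, U = Real.cosh s • (1 : A) - Real.sinh s • X i := ⟨_, rfl⟩
    obtain ⟨W, hW⟩ : ∃ W, W = Real.cosh s • (1 : A) + Real.sinh s • X i := ⟨_, rfl⟩
    rw [← hU, ← hW]
    calc t (U * (g' * c * g) * W * (g * st c * g')) =
        t ((U * (g' * c * g) * W * g * st c) * g') := by simp only [mul_assoc]
      _ = t (g' * (U * (g' * c * g) * W * g * st c)) := H.comm _ _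
      _ = _ := by simp only [mul_assoc]
  obtain ⟨r, hr⟩ := commutant_scalar hfin H.toTrStar hst hsq hac _ hcomm
  refine ⟨r, ?_⟩
  calc c = (g * g') * c * (g * g') := by rw [hgg', one_mul, mul_one]
    _ = g * (g' * c * g) * g' := by simp only [mul_assoc]
    _ = g * algebraMap ℝ A r * g' := by rw [hr]
    _ = algebraMap ℝ A r * (g * g') := by
        rw [← Algebra.commutes, mul_assoc]
    _ = _ := by rw [hgg', mul_one]

end Pool.Agent.Helper84.NG
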