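import Mathlib
import Pool.Agent.Helper77.T2.RealA

/-!
MP_0fb3e0_gt. The `R`-algebra structure of `A5 R`; over a field `A5` has dimension 16.
-/

set_option autoImplicit false

namespace Pool.Agent.Helper84.NG

open H77T2

variable {R : Type*} [CommRing R]

instance instSMulL : SMul R (L5 R) := ⟨fun r p => ⟨r * p.c0, r * p.c1, r * p.c2, r * p.c3⟩⟩

@[simp] theorem smulL_c0 (r : R) (p : L5 R) : (r • p).c0 = r * p.c0 := rfl
@[simp] theorem smulL_c1 (r : R) (p : L5 R) : (r • p).c1 = r * p.c1 := rfl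
@[simp] theorem smulL_c2 (r : R) (p : L5 R) : (r • p).c2 = r * p.c2 := rfl
@[simp] theorem smulL_c3 (r : R) (p : L5 R) : (r • p).c3 = r * p.c3 := rfl

theorem of_mulL (r : R) (p : L5 R) : L5.of r * p = r • p := by
  refine L5.ext ?_ ?_ ?_ ?_
  · show r * p.c0 - (0 * p.c3 + 0 * p.c2 + 0 * p.c1) + (0 * p.c3 + 0 * p.c2) = r * p.c0
    ring
  · show r * p.c1 + 0 * p.c0 - (0 * p.c3 + 0 * p.c2 + 0 * p.c1) + 0 * p.c3 = r * p.c1
    ring
  · show r * p.c2 + 0 * p.c1 + 0 * p.c0 - (0 * p.c3 + 0 * p.c2 + 0 * p.c1) = r * p.c2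
    ring
  · show r * p.c3 + 0 * p.c2 + 0 * p.c1 + 0 * p.c0 - (0 * p.c3 + 0 * p.c2 + 0 * p.c1) = r * p.c3
    ring

/-- scalars as a ring homomorphism -/
def ofL : R →+* L5 R where
  toFun := L5.of
  map_one' := rfl
  map_mul' a b := by
    rw [of_mulL]
    exact L5.ext rfl (mul_zero a).symm (mul_zero a).symm (mul_zero a).symm
  map_zero' := rfl
  map_add' a b := L5.ext rfl (add_zero 0).symm (add_zero 0).symm (add_zero 0).symm

theorem ofL_apply (r : R) : ofL r = L5.of r := rfl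

instance instAlgL : Algebra R (L5 R) where
  smul := (· • ·)
  algebraMap := ofL
  commutes' r p := mul_comm _ _
  smul_def' r p := (of_mulL r p).symm

theorem algebraMapL (r : R) : algebraMap R (L5 R) r = L5.of r := rfl

instance instSMulA : SMul R (A5 R) := ⟨fun r p => ⟨r • p.l0, r • p.l1, r • p.l2, r • p.l3⟩⟩

@[simp] theorem smulA_l0 (r : R) (p : A5 R) : (r • p).l0 = r • p.l0 := rfl
@[simp] theorem smulA_l1 (r : R) (p : A5 R) : (r • p).l1 = r • p.l1 := rfl
@[simp] theorem smulA_l2 (r : R) (p : A5 R) : (r • p).l2 = r • p.l2 := rfl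
@[simp] theorem smulA_l3 (r : R) (p : A5 R) : (r • p).l3 = r • p.l3 := rfl

theorem sg_smul (r : R) (p : L5 R) : L5.sg (r • p) = r • L5.sg p := by
  refine L5.ext ?_ ?_ ?_ ?_
  · show r * p.c0 - r * p.c2 = r * (p.c0 - p.c2)
    ring
  · show r * p.c3 - r * p.c2 = r * (p.c3 - p.c2)
    ring
  · show r * p.c1 - r * p.c2 = r * (p.c1 - p.c2)
    ring
  · show -(r * p.c2) = r * -p.c2
    ring

theorem of_mulA (r : R) (p : A5 R) : A5.of r * p = r • p := by
  refine A5.ext ?_ ?_ ?_ ?_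
  · show L5.of r * p.l0 - 54 * (0 * L5.sg p.l3 + 0 * L5.sg (L5.sg p.l2) +
      0 * L5.sg (L5.sg (L5.sg p.l1))) = r • p.l0
    rw [← of_mulL]; ring
  · show L5.of r * p.l1 + 0 * L5.sg p.l0 - 54 * (0 * L5.sg (L5.sg p.l3) +
      0 * L5.sg (L5.sg (L5.sg p.l2))) = r • p.l1
    rw [← of_mulL]; ring
  · show L5.of r * p.l2 + 0 * L5.sg p.l1 + 0 * L5.sg (L5.sg p.l0) -
      54 * (0 * L5.sg (L5.sg (L5.sg p.l3))) = r • p.l2
    rw [← of_mulL]; ring
  · show L5.of r * p.l3 + 0 * L5.sg p.l2 + 0 * L5.sg (L5.sg p.l1) +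
      0 * L5.sg (L5.sg (L5.sg p.l0)) = r • p.l3
    rw [← of_mulL]; ring

theorem mul_ofA (r : R) (p : A5 R) : p * A5.of r = r • p := by
  have h1 : L5.sg (L5.of r) = L5.of r := sg_of r
  refine A5.ext ?_ ?_ ?_ ?_
  · show p.l0 * L5.of r - 54 * (p.l1 * L5.sg 0 + p.l2 * L5.sg (L5.sg 0) +
      p.l3 * L5.sg (L5.sg (L5.sg 0))) = r • p.l0
    rw [← of_mulL, map_zero, map_zero, map_zero]; ring
  · show p.l0 * 0 + p.l1 * L5.sg (L5.of r) - 54 * (p.l2 * L5.sg (L5.sg 0) +
      p.l3 * L5.sg (L5.sg (L5.sg 0))) = r • p.l1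
    rw [← of_mulL, map_zero, map_zero, map_zero, h1]; ring
  · show p.l0 * 0 + p.l1 * L5.sg 0 + p.l2 * L5.sg (L5.sg (L5.of r)) -
      54 * (p.l3 * L5.sg (L5.sg (L5.sg 0))) = r • p.l2
    rw [← of_mulL, map_zero, map_zero, map_zero, h1, h1]; ring
  · show p.l0 * 0 + p.l1 * L5.sg 0 + p.l2 * L5.sg (L5.sg 0) +
      p.l3 * L5.sg (L5.sg (L5.sg (L5.of r))) = r • p.l3
    rw [← of_mulL, map_zero, map_zero, h1, h1, h1]; ring

/-- scalars as a ring homomorphism -/
def ofA : R →+* A5 R where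
  toFun := A5.of
  map_one' := rfl
  map_mul' a b := by
    rw [of_mulA]
    refine A5.ext (ofL.map_mul a b |>.trans (of_mulL a _)) ?_ ?_ ?_
    · exact (smul_zero a).symm
    · exact (smul_zero a).symm
    · exact (smul_zero a).symm
  map_zero' := rfl
  map_add' a b := A5.ext (ofL.map_add a b) (add_zero 0).symm (add_zero 0).symm (add_zero 0).symm

theorem ofA_apply (r : R) : ofA r = A5.of r := rfl

instance instAlgA : Algebra R (A5 R) where
  smul := (· • ·)
  algebraMap := ofA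
  commutes' r p := (of_mulA r p).trans (mul_ofA r p).symm
  smul_def' r p := (of_mulA r p).symm

theorem algebraMapA (r : R) : algebraMap R (A5 R) r = A5.of r := rfl

/-- coordinates of `L5` -/
def eqL : L5 R ≃ₗ[R] (Fin 4 → R) where
  toFun p := ![p.c0, p.c1, p.c2, p.c3]
  invFun v := ⟨v 0, v 1, v 2, v 3⟩
  map_add' p q := by funext i; fin_cases i <;> rfl
  map_smul' r p := by funext i; fin_cases i <;> rfl
  left_inv p := rfl
  right_inv v := by funext i; fin_cases i <;> rfl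

/-- coordinates of `A5` -/
def eqA : A5 R ≃ₗ[R] (Fin 4 → L5 R) where
  toFun p := ![p.l0, p.l1, p.l2, p.l3]
  invFun v := ⟨v 0, v 1, v 2, v 3⟩
  map_add' p q := by funext i; fin_cases i <;> rfl
  map_smul' r p := by funext i; fin_cases i <;> rfl
  left_inv p := rfl
  right_inv v := by funext i; fin_cases i <;> rfl

instance instFreeL : Module.Free R (L5 R) := Module.Free.of_equiv eqL.symm
instance instFinL : Module.Finite R (L5 R) := Module.Finite.equiv eqL.symm
instance instFreeA : Module.Free R (A5 R) := Module.Free.of_equiv eqA.symm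
instance instFinA : Module.Finite R (A5 R) := Module.Finite.equiv eqA.symm

instance instNontrivialA [Nontrivial R] : Nontrivial (A5 R) :=
  ⟨⟨0, 1, fun h => zero_ne_one (congrArg (fun p : A5 R => p.l0.c0) h)⟩⟩

theorem finrankL [Nontrivial R] : Module.finrank R (L5 R) = 4 := by
  rw [eqL.finrank_eq]; simp

theorem finrankA [Nontrivial R] : Module.finrank R (A5 R) = 16 := by
  rw [eqA.finrank_eq, Module.finrank_pi_fintype]
  simp [finrankL]

end Pool.Agent.Helper84.NG
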