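import Mathlib
import Pool.Agent.Helper84.NG.Inst
import Pool.Agent.Helper84.NG.Comm

/-!
MP_0fb3e0_gt. The trace and the positive involution of `A5 ℝ`.
-/

set_option autoImplicit false

namespace Pool.Agent.Helper84.NG

open H77T2 L5 A5

/-- the normalized trace of `L5` -/
noncomputable def trL : L5 ℝ →ₗ[ℝ] ℝ where
  toFun p := (4 * p.c0 - p.c1 - p.c2 - p.c3) / 4
  map_add' p q := by simp; ring
  map_smul' r p := by simp; ring

theorem trL_apply (p : L5 ℝ) : trL p = (4 * p.c0 - p.c1 - p.c2 - p.c3) / 4 := rfl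

theorem trL_sg (p : L5 ℝ) : trL (sg p) = trL p := by
  rw [trL_apply, trL_apply]; simp; ring

/-- the normalized trace of `A5` -/
noncomputable def trA : A5 ℝ →ₗ[ℝ] ℝ where
  toFun p := trL p.l0
  map_add' p q := by rw [add_l0, map_add]
  map_smul' r p := by rw [smulA_l0, map_smul]; rfl

theorem trA_apply (p : A5 ℝ) : trA p = trL p.l0 := rfl

theorem trL_54 (p : L5 ℝ) : trL (54 * p) = 54 * trL p := by
  rw [← of_54]
  rw [trL_apply, trL_apply]; simp [L5.of]; ring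

theorem trL_of (r : ℝ) (p : L5 ℝ) : trL (L5.of r * p) = r * trL p := by
  rw [trL_apply, trL_apply]; simp [L5.of]; ring

theorem trA_comm (g h : A5 ℝ) : trA (g * h) = trA (h * g) := by
  rw [trA_apply, trA_apply, mul_l0, mul_l0, map_sub, map_sub, trL_54, trL_54, map_add, map_add,
    map_add, map_add]
  have h1 : trL (g.l1 * sg h.l3) = trL (h.l3 * sg (sg (sg g.l1))) := by
    rw [← trL_sg, ← trL_sg, ← trL_sg]
    simp only [map_mul, sg_sg_sg_sg]
    rw [mul_comm]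
  have h2 : trL (g.l2 * sg (sg h.l2)) = trL (h.l2 * sg (sg g.l2)) := by
    rw [← trL_sg, ← trL_sg]
    simp only [map_mul, sg_sg_sg_sg]
    rw [mul_comm]
  have h3 : trL (g.l3 * sg (sg (sg h.l1))) = trL (h.l1 * sg g.l3) := by
    rw [← trL_sg]
    simp only [map_mul, sg_sg_sg_sg]
    rw [mul_comm]
  have h0 : trL (g.l0 * h.l0) = trL (h.l0 * g.l0) := by rw [mul_comm]
  rw [h0, h1, h2, h3]
  ring

/-- the involution as a linear map -/
noncomputable def stL : A5 ℝ →ₗ[ℝ] A5 ℝ where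
  toFun := st
  map_add' := st_add
  map_smul' r p := by
    ext1
    · simp only [st_l0, smulA_l0, cj, sg_smul, RingHom.id_apply]
    · simp only [st_l1, smulA_l1, smulA_l3, sg_smul, RingHom.id_apply, mul_smul_comm, smul_neg]
    · simp only [st_l2, smulA_l2, RingHom.id_apply, smul_neg]
    · simp only [st_l3, smulA_l1, smulA_l3, sg_smul, RingHom.id_apply, mul_smul_comm, smul_neg]

theorem stL_apply (p : A5 ℝ) : stL p = st p := rfl

/-- the positive form of `L5` -/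
theorem trL_pos (p : L5 ℝ) : 0 ≤ trL (p * cj p) := by
  rw [trL_apply]; simp only [cj, mul_c0, mul_c1, mul_c2, mul_c3, sg_c0, sg_c1, sg_c2, sg_c3]
  nlinarith [sq_nonneg p.c0, sq_nonneg p.c1, sq_nonneg p.c2, sq_nonneg p.c3,
    sq_nonneg (p.c0 - p.c1), sq_nonneg (p.c0 - p.c2), sq_nonneg (p.c0 - p.c3),
    sq_nonneg (p.c1 - p.c2), sq_nonneg (p.c1 - p.c3), sq_nonneg (p.c2 - p.c3)]

theorem trL_expand (p : L5 ℝ) : 4 * trL (p * cj p) =
    (p.c0 ^ 2 + p.c1 ^ 2 + p.c2 ^ 2 + p.c3 ^ 2) + (p.c0 - p.c1) ^ 2 + (p.c0 - p.c2) ^ 2 +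
      (p.c0 - p.c3) ^ 2 + (p.c1 - p.c2) ^ 2 + (p.c1 - p.c3) ^ 2 + (p.c2 - p.c3) ^ 2 := by
  rw [trL_apply]; simp only [cj, mul_c0, mul_c1, mul_c2, mul_c3, sg_c0, sg_c1, sg_c2, sg_c3]
  ring

theorem trL_eq_zero (p : L5 ℝ) (h : trL (p * cj p) = 0) : p = 0 := by
  have h1 := trL_expand p
  rw [h] at h1
  have h2 := sq_nonneg p.c0
  have h3 := sq_nonneg p.c1
  have h4 := sq_nonneg p.c2
  have h5 := sq_nonneg p.c3
  have g1 := sq_nonneg (p.c0 - p.c1)
  have g2 := sq_nonneg (p.c0 - p.c2)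
  have g3 := sq_nonneg (p.c0 - p.c3)
  have g4 := sq_nonneg (p.c1 - p.c2)
  have g5 := sq_nonneg (p.c1 - p.c3)
  have g6 := sq_nonneg (p.c2 - p.c3)
  have e0 : p.c0 ^ 2 = 0 := by linarith
  have e1 : p.c1 ^ 2 = 0 := by linarith
  have e2 : p.c2 ^ 2 = 0 := by linarith
  have e3 : p.c3 ^ 2 = 0 := by linarith
  ext
  · exact pow_eq_zero_iff (two_ne_zero) |>.mp e0
  · exact pow_eq_zero_iff (two_ne_zero) |>.mp e1
  · exact pow_eq_zero_iff (two_ne_zero) |>.mp e2
  · exact pow_eq_zero_iff (two_ne_zero) |>.mp e3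

theorem trA_star (g : A5 ℝ) : trA (g * st g) = trL (g.l0 * cj g.l0) + s54 * trL (g.l1 * cj g.l1) +
    54 * trL (g.l2 * cj g.l2) + 54 * s54 * trL (g.l3 * cj g.l3) := by
  rw [trA_apply, mul_l0]
  simp only [st_l0, st_l1, st_l2, st_l3, map_neg, map_mul, sg_of, sg_sg_sg_sg, cj]
  have e : g.l0 * sg (sg g.l0) - 54 * (g.l1 * -(L5.of (s54 / 54) * sg (sg g.l1)) +
      g.l2 * -sg (sg g.l2) + g.l3 * -(L5.of s54 * sg (sg g.l3))) =
      g.l0 * sg (sg g.l0) + L5.of s54 * (g.l1 * sg (sg g.l1)) + 54 * (g.l2 * sg (sg g.l2)) +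
      54 * (L5.of s54 * (g.l3 * sg (sg g.l3))) := by
    linear_combination (g.l1 * sg (sg g.l1)) * of_54_mul
  rw [e, map_add, map_add, map_add, trL_of, trL_54, trL_54, trL_of]
  ring

theorem trStar : TrStar trA stL where
  comm := trA_comm
  mul := st_mul
  one := st_one
  pos g hg := by
    rw [stL_apply, trA_star]
    have hs := s54_pos
    have h0 := trL_pos g.l0
    have h1 := trL_pos g.l1
    have h2 := trL_pos g.l2
    have h3 := trL_pos g.l3
    have k1 : 0 ≤ s54 * trL (g.l1 * cj g.l1) := mul_nonneg hs.le h1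
    have k3 : 0 ≤ 54 * s54 * trL (g.l3 * cj g.l3) := mul_nonneg (by linarith) h3
    by_contra hcon
    push Not at hcon
    apply hg
    have z0 : trL (g.l0 * cj g.l0) = 0 := by linarith
    have z1 : s54 * trL (g.l1 * cj g.l1) = 0 := by linarith
    have z2 : trL (g.l2 * cj g.l2) = 0 := by linarith
    have z3 : 54 * s54 * trL (g.l3 * cj g.l3) = 0 := by linarith
    have z1' := (mul_eq_zero.mp z1).resolve_left hs.ne'
    have z3' := (mul_eq_zero.mp z3).resolve_left (by positivity)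
    ext1
    · exact trL_eq_zero _ z0
    · exact trL_eq_zero _ z1'
    · exact trL_eq_zero _ z2
    · exact trL_eq_zero _ z3'

end Pool.Agent.Helper84.NG
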