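import Mathlib
import Pool.Agent.Helper84.NG.Star

/-!
MP_0fb3e0_gt. `V = {X = X*}` with the form `B6` is Minkowski space.
-/

set_option autoImplicit false

namespace Pool.Agent.Helper84.NG

open H77T2 L5 A5

/-- `emb` as a linear map -/
noncomputable def embL : (Fin 6 → ℝ) →ₗ[ℝ] A5 ℝ where
  toFun := emb
  map_add' v w := by ext <;> simp [emb, L5.of] <;> ring
  map_smul' r v := by ext <;> simp [emb, L5.of] <;> ring

theorem embL_apply (v : Fin 6 → ℝ) : embL v = emb v := rfl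

theorem trA_emb (v : Fin 6 → ℝ) : trA (emb v) = v 0 := by
  rw [trA_apply, trL_apply]; simp [emb]; ring

/-- the quadratic form in `L5` -/
theorem of_B6 (v : Fin 6 → ℝ) : L5.of (B6 v v) = (emb v).l0 * sg (emb v).l0 -
    L5.of s54 * ((emb v).l1 * sg (sg (emb v).l1) + sg (emb v).l1 * sg (sg (sg (emb v).l1))) := by
  ext <;> simp only [L5.of, emb, B6, sub_c0, sub_c1, sub_c2, sub_c3, add_c0, add_c1, add_c2,
    add_c3, mul_c0, mul_c1, mul_c2, mul_c3, sg_c0, sg_c1, sg_c2, sg_c3] <;> ring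

theorem sg_l0 (v : Fin 6 → ℝ) : sg (emb v).l0 = L5.of (2 * v 0) - (emb v).l0 := by
  ext <;> simp [emb, L5.of] <;> ring

theorem emb_l2 (v : Fin 6 → ℝ) : (emb v).l2 = 0 := rfl

theorem emb_l3 (v : Fin 6 → ℝ) : (emb v).l3 = -(L5.of (s54 / 54) * sg (emb v).l1) := rfl

theorem smul_eq_ofL (r : ℝ) (p : L5 ℝ) : r • p = L5.of r * p := by
  ext <;> simp [L5.of]

/-- the quadratic relation -/
theorem emb_sq (v : Fin 6 → ℝ) : emb v * emb v = (2 * v 0) • emb v - (B6 v v) • (1 : A5 ℝ) := by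
  have hB := of_B6 v
  have h0 := sg_l0 v
  have h3 := emb_l3 v
  have h2 := emb_l2 v
  have e1 := of_54_mul
  have e2 := of_54_mul_mul
  ext1
  · simp only [mul_l0, sub_l0, smulA_l0, one_l0, smul_eq_ofL, h2, h3, map_neg, map_mul, sg_of,
      mul_one, zero_mul]
    rw [hB, h0]
    linear_combination ((emb v).l1 * sg (sg (emb v).l1) + sg (emb v).l1 * sg (sg (sg (emb v).l1))) * e1
  · simp only [mul_l1, sub_l1, smulA_l1, one_l1, smul_eq_ofL, h2, map_zero,
      mul_zero, zero_mul]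
    rw [h0]
    ring
  · simp only [mul_l2, sub_l2, smulA_l2, one_l2, smul_eq_ofL, h2, h3, map_neg, map_mul, sg_of,
      mul_zero, zero_mul, sg_sg_sg_sg]
    linear_combination (-(emb v).l1 * sg (emb v).l1) * e2
  · simp only [mul_l3, sub_l3, smulA_l3, one_l3, smul_eq_ofL, h2, map_zero,
      mul_zero, zero_mul]
    have h4 : sg (sg (sg (emb v).l0)) = L5.of (2 * v 0) - (emb v).l0 := by
      rw [h0, map_sub, map_sub, sg_of, sg_of, h0, map_sub, sg_of, h0]
      ring
    rw [h4]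
    ring

/-- scalings -/
noncomputable def al : ℝ := Real.sqrt 5
noncomputable def be : ℝ := Real.sqrt (s54 / 2)
noncomputable def ga : ℝ := Real.sqrt (5 * s54 / 2)

theorem al_sq : al * al = 5 := Real.mul_self_sqrt (by norm_num)
theorem be_sq : be * be = s54 / 2 := Real.mul_self_sqrt (by have := s54_pos; positivity)
theorem ga_sq : ga * ga = 5 * s54 / 2 := Real.mul_self_sqrt (by have := s54_pos; positivity)
theorem al_ne : al ≠ 0 := by intro h; have := al_sq; rw [h] at this; norm_num at this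
theorem be_ne : be ≠ 0 := by
  intro h; have := be_sq; rw [h] at this; have := s54_pos; linarith
theorem ga_ne : ga ≠ 0 := by
  intro h; have := ga_sq; rw [h] at this; have := s54_pos; linarith

/-- the isometry `(ℝ^6, B6) → (ℝ^6, mink 5)` -/
noncomputable def CC : (Fin 6 → ℝ) ≃ₗ[ℝ] (Fin 6 → ℝ) where
  toFun v := ![v 0, al * v 1, be * ((v 2 + v 3 + v 4 + v 5) / 2),
    ga * ((v 2 + v 3 - v 4 - v 5) / 2), ga * ((v 2 - v 3 + v 4 - v 5) / 2),
    ga * ((v 2 - v 3 - v 4 + v 5) / 2)]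
  invFun y := ![y 0, y 1 / al, (y 2 / be + y 3 / ga + y 4 / ga + y 5 / ga) / 2,
    (y 2 / be + y 3 / ga - y 4 / ga - y 5 / ga) / 2,
    (y 2 / be - y 3 / ga + y 4 / ga - y 5 / ga) / 2,
    (y 2 / be - y 3 / ga - y 4 / ga + y 5 / ga) / 2]
  map_add' v w := by
    funext i
    fin_cases i <;> simp <;> ring
  map_smul' r v := by
    funext i
    fin_cases i <;> simp <;> ring
  left_inv v := by
    have := al_ne; have := be_ne; have := ga_ne
    funext i
    fin_cases i <;> simp <;> field_simp <;> ring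
  right_inv y := by
    have := al_ne; have := be_ne; have := ga_ne
    funext i
    fin_cases i <;> simp <;> field_simp <;> ring

theorem CC_zero (v : Fin 6 → ℝ) : CC v 0 = v 0 := rfl

theorem CC_mink (v w : Fin 6 → ℝ) : mink 5 (CC v) (CC w) = B6 v w := by
  have h1 := al_sq
  have h2 := be_sq
  have h3 := ga_sq
  have e : mink 5 (CC v) (CC w) = v 0 * w 0 - (al * al * (v 1 * w 1) +
      be * be * ((v 2 + v 3 + v 4 + v 5) / 2 * ((w 2 + w 3 + w 4 + w 5) / 2)) +
      ga * ga * ((v 2 + v 3 - v 4 - v 5) / 2 * ((w 2 + w 3 - w 4 - w 5) / 2)) +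
      ga * ga * ((v 2 - v 3 + v 4 - v 5) / 2 * ((w 2 - w 3 + w 4 - w 5) / 2)) +
      ga * ga * ((v 2 - v 3 - v 4 + v 5) / 2 * ((w 2 - w 3 - w 4 + w 5) / 2))) := by
    unfold mink
    rw [Fin.sum_univ_five]
    simp only [CC, LinearEquiv.coe_mk, LinearMap.coe_mk, AddHom.coe_mk]
    show v 0 * w 0 - (al * v 1 * (al * w 1) + _ + _ + _ + _) = _
    simp
    ring
  rw [e, h1, h2, h3]
  unfold B6
  ring

/-- the model -/
noncomputable def psi : (Fin (5 + 1) → ℝ) →ₗ[ℝ] A5 ℝ := embL.comp CC.symm.toLinearMap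

theorem psi_CC (v : Fin 6 → ℝ) : psi (CC v) = emb v := by
  show embL (CC.symm (CC v)) = emb v
  rw [LinearEquiv.symm_apply_apply]; rfl

theorem model : Model 5 trA stL psi where
  toTrStar := trStar
  stψ y := by
    obtain ⟨v, rfl⟩ := CC.surjective y
    rw [psi_CC, stL_apply, st_emb]
  quad y := by
    obtain ⟨v, rfl⟩ := CC.surjective y
    rw [psi_CC, CC_mink, CC_zero, emb_sq]

end Pool.Agent.Helper84.NG
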