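import Mathlib
import Pool.Agent.Helper84.NG.Form

/-!
MP_0fb3e0_gt. `B6 (T g v) (T g w) = nr g * B6 v w` and `nr (g h) = nr g * nr h`.
-/

set_option autoImplicit false

namespace Pool.Agent.Helper84.NG

open H77T2 L5 A5

/-- the quadratic form in `L5` -/
noncomputable def NN (X : A5 ℝ) : L5 ℝ := X.l0 * sg X.l0 -
    L5.of s54 * (X.l1 * sg (sg X.l1) + sg X.l1 * sg (sg (sg X.l1)))

theorem NN_emb (v : Fin 6 → ℝ) : NN (emb v) = L5.of (B6 v v) := (of_B6 v).symm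

/-- the Pfaffian identity -/
theorem NN_mul (g X : A5 ℝ) (c p : L5 ℝ) (hg : g.l1 = L5.of s54 * p) (h0 : sg (sg X.l0) = X.l0)
    (h1 : X.l1 = L5.of s54 * c) (h2 : X.l2 = 0) (h3 : X.l3 = -sg c) :
    NN (g * X * st g) = NN (g * st g) * NN X := by
  have hu : L5.of (s54 / 54) * L5.of s54 = 1 := by rw [mul_comm]; exact of_s54_inv
  have hs3 : (st g).l3 = -sg p := by
    rw [st_l3, hg, map_mul, sg_of, ← mul_assoc, hu, one_mul]
  have h54 : (54 : L5 ℝ) = L5.of s54 * L5.of s54 := of_s54_mul.symm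
  have hf : ∀ a : L5 ℝ, sg (sg (sg (sg a))) = a := sg_sg_sg_sg
  obtain ⟨S, hS⟩ : ∃ S, S = L5.of s54 := ⟨_, rfl⟩
  have hSS : sg S = S := by rw [hS, sg_of]
  have e0 : (g * X * st g).l0 = (g * X).l0 * cj g.l0 - 54 * ((g * X).l1 * sg (-sg p) +
      (g * X).l2 * sg (sg (-g.l2)) + (g * X).l3 * sg (sg (sg (-(L5.of s54 * sg (sg (sg g.l3))))))) := by
    rw [mul_l0, hs3]; rfl
  have e1 : (g * X * st g).l1 = (g * X).l0 * -(L5.of s54 * sg (sg (sg g.l3))) +
      (g * X).l1 * sg (cj g.l0) - 54 * ((g * X).l2 * sg (sg (-sg p)) +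
      (g * X).l3 * sg (sg (sg (-g.l2)))) := by
    rw [mul_l1, hs3]; rfl
  have e2 : (g * st g).l0 = g.l0 * cj g.l0 - 54 * (g.l1 * sg (-sg p) +
      g.l2 * sg (sg (-g.l2)) + g.l3 * sg (sg (sg (-(L5.of s54 * sg (sg (sg g.l3))))))) := by
    rw [mul_l0, hs3]; rfl
  have e3 : (g * st g).l1 = g.l0 * -(L5.of s54 * sg (sg (sg g.l3))) +
      g.l1 * sg (cj g.l0) - 54 * (g.l2 * sg (sg (-sg p)) +
      g.l3 * sg (sg (sg (-g.l2)))) := by
    rw [mul_l1, hs3]; rfl
  unfold NN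
  rw [e0, e1, e2, e3, mul_l0, mul_l1, mul_l2, mul_l3, h54, hg, h1, h2, h3, ← hS]
  simp only [cj, map_mul, map_add, map_sub, map_neg, map_zero, hSS, hf, h0]
  ring

theorem of_inj {a b : ℝ} (h : L5.of a = L5.of b) : a = b := congrArg L5.c0 h

theorem NN_star (g : A5 ℝ) : NN (g * st g) = L5.of (nr g) := by
  have : g * st g = emb (T g o6) := by rw [emb_T, emb_o6, mul_one]
  rw [this, NN_emb]; rfl

/-- multiplicativity -/
theorem B6_T (g : A5 ℝ) (v : Fin 6 → ℝ) : B6 (T g v) (T g v) = nr g * B6 v v := by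
  apply of_inj
  rw [← NN_emb, emb_T]
  have hu : L5.of s54 * L5.of (s54 / 54) = 1 := of_s54_inv
  have h := NN_mul g (emb v) (L5.of (s54 / 54) * (emb v).l1) (L5.of (s54 / 54) * g.l1)
    (by rw [← mul_assoc, hu, one_mul])
    (by rw [sg_l0, map_sub, sg_of, sg_l0]; ring)
    (by rw [← mul_assoc, hu, one_mul]) (emb_l2 v)
    (by rw [emb_l3, map_mul, sg_of])
  rw [h, NN_star, NN_emb, of_mul_of]

/-- `T g` as a linear map -/
noncomputable def TL (g : A5 ℝ) : (Fin 6 → ℝ) →ₗ[ℝ] (Fin 6 → ℝ) where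
  toFun := T g
  map_add' v w := by
    rw [← co_emb (T g (v + w)), ← co_emb (T g v + T g w)]
    congr 1
    rw [emb_T, ← embL_apply, ← embL_apply, map_add, map_add, embL_apply, embL_apply, embL_apply,
      embL_apply, emb_T, emb_T, mul_add, add_mul]
  map_smul' r v := by
    rw [← co_emb (T g (r • v)), ← co_emb (RingHom.id ℝ r • T g v)]
    congr 1
    rw [emb_T, ← embL_apply, ← embL_apply, map_smul, map_smul, embL_apply, embL_apply, emb_T,
      mul_smul_comm, smul_mul_assoc]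
    rfl

theorem TL_apply (g : A5 ℝ) (v : Fin 6 → ℝ) : TL g v = T g v := rfl

/-- the action on Minkowski space -/
noncomputable def MM (g : A5 ℝ) : (Fin (5 + 1) → ℝ) →ₗ[ℝ] (Fin (5 + 1) → ℝ) :=
  CC.toLinearMap.comp ((TL g).comp CC.symm.toLinearMap)

theorem MM_CC (g : A5 ℝ) (v : Fin 6 → ℝ) : MM g (CC v) = CC (T g v) := by
  unfold MM
  rw [LinearMap.comp_apply, LinearMap.comp_apply, LinearEquiv.coe_coe, LinearEquiv.coe_coe,
    LinearEquiv.symm_apply_apply, TL_apply]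

theorem psi_MM (g : A5 ℝ) (y : Fin (5 + 1) → ℝ) : psi (MM g y) = g * psi y * st g := by
  obtain ⟨v, rfl⟩ := CC.surjective y
  rw [MM_CC, psi_CC, psi_CC, emb_T]

theorem mink_MM_self (g : A5 ℝ) (y : Fin (5 + 1) → ℝ) :
    mink 5 (MM g y) (MM g y) = nr g * mink 5 y y := by
  obtain ⟨v, rfl⟩ := CC.surjective y
  rw [MM_CC, CC_mink, CC_mink, B6_T]

theorem mink_MM (g : A5 ℝ) (x y : Fin (5 + 1) → ℝ) :
    mink 5 (MM g x) (MM g y) = nr g * mink 5 x y := by
  have h := mink_MM_self g (x + y)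
  have hx := mink_MM_self g x
  have hy := mink_MM_self g y
  rw [map_add, mink_add_left, mink_add_right, mink_add_right, mink_add_left, mink_add_right,
    mink_add_right, mink_comm (MM g y) (MM g x), mink_comm y x] at h
  linarith

theorem psi_inj : Function.Injective psi := by
  intro x y h
  obtain ⟨v, rfl⟩ := CC.surjective x
  obtain ⟨w, rfl⟩ := CC.surjective y
  rw [psi_CC, psi_CC] at h
  rw [← co_emb v, ← co_emb w, h]

theorem MM_mul (g h : A5 ℝ) : MM (g * h) = MM g * MM h := by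
  apply LinearMap.ext
  intro y
  apply psi_inj
  rw [Module.End.mul_apply, psi_MM, psi_MM, psi_MM, st_mul]
  simp only [mul_assoc]

theorem MM_one : MM 1 = 1 := by
  apply LinearMap.ext
  intro y
  apply psi_inj
  rw [psi_MM, st_one, one_mul, mul_one]; rfl

theorem nr_mul (g h : A5 ℝ) : nr (g * h) = nr g * nr h := by
  unfold nr
  rw [T_mul, B6_T]; rfl

theorem nr_one : nr 1 = 1 := by
  unfold nr
  rw [T_one]
  simp [B6, o6]

theorem trA_psi (y : Fin (5 + 1) → ℝ) : trA (psi y) = y 0 := by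
  obtain ⟨v, rfl⟩ := CC.surjective y
  rw [psi_CC, trA_emb, CC_zero]

/-- the future sheet is preserved -/
theorem MM_pos (g : (A5 ℝ)ˣ) {y : Fin (5 + 1) → ℝ} (hy : y ∈ Hyp 5) : 0 < MM g.1 y 0 := by
  obtain ⟨h, h', h1, h2, h3, h4, h5⟩ := exists_sqrt stL (p := psi y) (τ := y 0) st_one
    (model.stψ y) hy.2 (by rw [model.quad, hy.1, one_smul])
  rw [← trA_psi (MM g.1 y), psi_MM]
  have h6 : g.1 * psi y * st g.1 = (g.1 * h) * stL (g.1 * h) := by
    have h7 : stL (g.1 * h) = h * st g.1 := by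
      rw [stL_apply, st_mul]
      have h8 : st h = h := h4
      rw [h8]
    rw [h7, ← h1]
    simp only [mul_assoc]
  rw [h6]
  apply trStar.pos
  intro h0
  have h8 : g.1 * h * (h' * g⁻¹.1) = 1 := by
    calc g.1 * h * (h' * g⁻¹.1) = g.1 * (h * h') * g⁻¹.1 := by simp only [mul_assoc]
      _ = 1 := by rw [h2, mul_one, Units.mul_inv]
  rw [h0, zero_mul] at h8
  exact zero_ne_one h8

/-- the representation as a monoid homomorphism into matrices -/
noncomputable def repM : A5 ℝ →* Matrix (Fin (5 + 1)) (Fin (5 + 1)) ℝ where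
  toFun g := LinearMap.toMatrix' (MM g)
  map_one' := by rw [MM_one]; exact LinearMap.toMatrix'_one
  map_mul' g h := by rw [MM_mul]; exact LinearMap.toMatrix'_mul _ _

/-- the representation -/
noncomputable def rep : (A5 ℝ)ˣ →* GL (Fin (5 + 1)) ℝ := Units.map repM

theorem rep_mulVec (g : (A5 ℝ)ˣ) (y : Fin (5 + 1) → ℝ) : (rep g).1.mulVec y = MM g.1 y := by
  show (LinearMap.toMatrix' (MM g.1)).mulVec y = _
  rw [LinearMap.toMatrix'_mulVec]

theorem rep_mem (g : (A5 ℝ)ˣ) (hg : nr g.1 = 1) : rep g ∈ IsomHyp 5 := by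
  refine ⟨fun v w => ?_, fun v hv => ⟨?_, ?_⟩⟩
  · rw [rep_mulVec, rep_mulVec, mink_MM, hg, one_mul]
  · rw [rep_mulVec, mink_MM, hg, one_mul]; exact hv.1
  · rw [rep_mulVec]; exact MM_pos g hv

theorem psi_mulVec (g : (A5 ℝ)ˣ) (y : Fin (5 + 1) → ℝ) :
    psi ((rep g).1.mulVec y) = g.1 * psi y * st g.1 := by
  rw [rep_mulVec, psi_MM]

theorem psi_e0 : psi (Pi.single 0 1) = 1 := by
  have : (Pi.single 0 1 : Fin (5 + 1) → ℝ) = CC o6 := by
    funext i
    fin_cases i <;> simp [CC, o6]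
  rw [this, psi_CC, emb_o6]

theorem Model.sq_one {A : Type*} [Ring A] [Algebra ℝ A] {n : ℕ} {t : A →ₗ[ℝ] ℝ}
    {st : A →ₗ[ℝ] A} {ψ : (Fin (n + 1) → ℝ) →ₗ[ℝ] A} (H : Model n t st ψ)
    (x : Fin (n + 1) → ℝ) (h0 : x 0 = 0) (h1 : mink n x x = -1) : ψ x * ψ x = 1 := by
  rw [H.quad, h0, h1, mul_zero, zero_smul, zero_sub, neg_smul, one_smul, neg_neg]

theorem Model.anti {A : Type*} [Ring A] [Algebra ℝ A] {n : ℕ} {t : A →ₗ[ℝ] ℝ}
    {st : A →ₗ[ℝ] A} {ψ : (Fin (n + 1) → ℝ) →ₗ[ℝ] A} (H : Model n t st ψ)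
    (x y : Fin (n + 1) → ℝ) (hx : x 0 = 0) (hy : y 0 = 0) (h : mink n x y = 0) :
    ψ x * ψ y = -(ψ y * ψ x) := by
  have := H.polar x y
  rw [hx, hy, h, mul_zero, zero_smul, zero_smul, zero_smul, add_zero, sub_zero] at this
  exact eq_neg_of_add_eq_zero_left this

theorem mulOneA (a : A5 ℝ) : a * 1 = a := mul_one a

theorem rep_comm {g : (A5 ℝ)ˣ} (h1 : ∀ y, g.1 * psi y * st g.1 = psi y) (h2 : g.1 * st g.1 = 1)
    (y : Fin (5 + 1) → ℝ) : psi y * g.1 = g.1 * psi y := by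
  have h3 : st g.1 * g.1 = 1 := by
    calc st g.1 * g.1 = (g⁻¹.1 * g.1) * (st g.1 * g.1) := by rw [Units.inv_mul, one_mul]
      _ = g⁻¹.1 * (g.1 * st g.1) * g.1 := by simp only [mul_assoc]
      _ = 1 := by rw [h2, mul_one, Units.inv_mul]
  calc psi y * g.1 = (g.1 * psi y * st g.1) * g.1 := by rw [h1]
    _ = g.1 * psi y * (st g.1 * g.1) := by simp only [mul_assoc]
    _ = _ := by rw [h3, mul_one]

/-- the kernel of the representation -/
theorem rep_ker (g : (A5 ℝ)ˣ) (hg : rep g = 1) : g.1 = 1 ∨ g.1 = -1 := by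
  have h1 : ∀ y, g.1 * psi y * st g.1 = psi y := by
    intro y
    rw [← psi_mulVec, hg]
    simp
  have h2 : g.1 * st g.1 = 1 := by
    have := h1 (Pi.single 0 1)
    rw [psi_e0, mulOneA] at this
    exact this
  have h4 := rep_comm h1 h2
  have hs0 : ∀ i : Fin 5, (Pi.single (Fin.succ i) (1 : ℝ) : Fin (5 + 1) → ℝ) 0 = 0 :=
    fun i => Pi.single_eq_of_ne (Fin.succ_ne_zero i).symm _
  obtain ⟨r, hr⟩ := commutant_scalar (A := A5 ℝ) finrankA trStar
    (X := fun i : Fin 4 => psi (Pi.single i.castSucc.succ 1))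
    (fun i => model.stψ _)
    (fun i => model.sq_one _ (hs0 _) (by rw [mink_single_succ, Pi.single_eq_same]))
    (fun i j hij => model.anti _ _ (hs0 _) (hs0 _) (by
      have h0 : (Pi.single (Fin.succ i.castSucc) (1 : ℝ) : Fin (5 + 1) → ℝ)
          (Fin.succ j.castSucc) = 0 :=
        Pi.single_eq_of_ne (fun h => hij (Fin.castSucc_injective _ (Fin.succ_injective _ h)).symm) _
      rw [mink_single_succ, h0, neg_zero]))
    g.1 (fun i => h4 _)
  have hr' : g.1 = A5.of r := hr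
  rw [hr'] at h2 ⊢
  have h6 : r * r = 1 := by
    have := congrArg (fun a : A5 ℝ => a.l0.c0) h2
    simpa [st, cj, A5.of, L5.of] using this
  rcases mul_self_eq_one_iff.mp h6 with h7 | h7
  · left; rw [h7]; rfl
  · right; rw [h7]; ext <;> simp [A5.of, L5.of]

end Pool.Agent.Helper84.NG
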