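import Mathlib
import Pool.Agent.Helper84.NG.Inst
import Pool.Agent.Helper77.T2.Ord

/-!
MP_0fb3e0_gt. `A5 ℚ` is a division algebra: reduction mod 2, where `L5` is the field with 16
elements and `x` is nilpotent.
-/

set_option autoImplicit false

namespace Pool.Agent.Helper84.NG

open H77T2 L5 A5

/-- the vanishing of the product, as a Boolean -/
def van (p q : ZMod 2 × ZMod 2 × ZMod 2 × ZMod 2) : Bool :=
  (p.1 * q.1 - (p.2.1 * q.2.2.2 + p.2.2.1 * q.2.2.1 + p.2.2.2 * q.2.1) +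
    (p.2.2.1 * q.2.2.2 + p.2.2.2 * q.2.2.1) = 0) &&
  (p.1 * q.2.1 + p.2.1 * q.1 - (p.2.1 * q.2.2.2 + p.2.2.1 * q.2.2.1 + p.2.2.2 * q.2.1) +
    p.2.2.2 * q.2.2.2 = 0) &&
  (p.1 * q.2.2.1 + p.2.1 * q.2.1 + p.2.2.1 * q.1 -
    (p.2.1 * q.2.2.2 + p.2.2.1 * q.2.2.1 + p.2.2.2 * q.2.1) = 0) &&
  (p.1 * q.2.2.2 + p.2.1 * q.2.2.1 + p.2.2.1 * q.2.1 + p.2.2.2 * q.1 -
    (p.2.1 * q.2.2.2 + p.2.2.1 * q.2.2.1 + p.2.2.2 * q.2.1) = 0)

theorem f16'' : ∀ p q : ZMod 2 × ZMod 2 × ZMod 2 × ZMod 2, (p = 0 ∨ q = 0) ∨ ¬ van p q = true := by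
  decide +kernel

theorem f16' (p q : ZMod 2 × ZMod 2 × ZMod 2 × ZMod 2) (h : van p q = true) : p = 0 ∨ q = 0 :=
  (f16'' p q).resolve_right fun h1 => h1 h

theorem f16 (p q : L5 (ZMod 2)) (h : p * q = 0) : p = 0 ∨ q = 0 := by
  have h1 : van (p.c0, p.c1, p.c2, p.c3) (q.c0, q.c1, q.c2, q.c3) = true := by
    have e0 := congrArg L5.c0 h
    have e1 := congrArg L5.c1 h
    have e2 := congrArg L5.c2 h
    have e3 := congrArg L5.c3 h
    rw [mul_c0, zero_c0] at e0
    rw [mul_c1, zero_c1] at e1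
    rw [mul_c2, zero_c2] at e2
    rw [mul_c3, zero_c3] at e3
    simp only [van, e0, e1, e2, e3, decide_true, Bool.and_self]
  rcases f16' _ _ h1 with h | h
  · left
    ext
    · exact congrArg (fun t => t.1) h
    · exact congrArg (fun t => t.2.1) h
    · exact congrArg (fun t => t.2.2.1) h
    · exact congrArg (fun t => t.2.2.2) h
  · right
    ext
    · exact congrArg (fun t => t.1) h
    · exact congrArg (fun t => t.2.1) h
    · exact congrArg (fun t => t.2.2.1) h
    · exact congrArg (fun t => t.2.2.2) h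

theorem sg_ne {p : L5 (ZMod 2)} (h : p ≠ 0) : sg p ≠ 0 := by
  intro h1
  apply h
  have := congrArg (fun q => sg (sg (sg q))) h1
  simpa only [sg_sg_sg_sg, map_zero] using this

theorem h54 : (54 : L5 (ZMod 2)) = 0 := by
  ext <;> rfl

/-- mod 2 -/
theorem unit_mod (a c : A5 (ZMod 2)) (h : a * c = 0) (hc : c.l0 ≠ 0) : a = 0 := by
  have c1 := sg_ne hc
  have c2 := sg_ne c1
  have c3 := sg_ne c2
  have e0 := congrArg A5.l0 h
  have e1 := congrArg A5.l1 h
  have e2 := congrArg A5.l2 h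
  have e3 := congrArg A5.l3 h
  rw [mul_l0, h54, zero_mul, sub_zero, zero_l0] at e0
  have a0 : a.l0 = 0 := (f16 _ _ e0).resolve_right hc
  rw [mul_l1, h54, zero_mul, sub_zero, zero_l1, a0, zero_mul, zero_add] at e1
  have a1 : a.l1 = 0 := (f16 _ _ e1).resolve_right c1
  rw [mul_l2, h54, zero_mul, sub_zero, zero_l2, a0, a1, zero_mul, zero_mul, zero_add,
    zero_add] at e2
  have a2 : a.l2 = 0 := (f16 _ _ e2).resolve_right c2
  rw [mul_l3, zero_l3, a0, a1, a2, zero_mul, zero_mul, zero_mul, zero_add,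
    zero_add, zero_add] at e3
  have a3 : a.l3 = 0 := (f16 _ _ e3).resolve_right c3
  ext1
  exacts [a0, a1, a2, a3]

/-- reduction mod 2 -/
def r2 : A5 ℤ →+* A5 (ZMod 2) := A5.map (Int.castRingHom (ZMod 2))
/-- reduction mod 2 -/
def r2L : L5 ℤ →+* L5 (ZMod 2) := L5.map (Int.castRingHom (ZMod 2))

theorem r2L_zero {p : L5 ℤ} (h : r2L p = 0) : ∃ q, p = 2 * q := by
  have key : ∀ n : ℤ, (Int.castRingHom (ZMod 2)) n = 0 → ∃ m, n = 2 * m := by
    intro n hn
    exact (ZMod.intCast_zmod_eq_zero_iff_dvd n 2).mp hn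
  obtain ⟨m0, h0⟩ := key _ (congrArg L5.c0 h)
  obtain ⟨m1, h1⟩ := key _ (congrArg L5.c1 h)
  obtain ⟨m2, h2⟩ := key _ (congrArg L5.c2 h)
  obtain ⟨m3, h3⟩ := key _ (congrArg L5.c3 h)
  refine ⟨⟨m0, m1, m2, m3⟩, ?_⟩
  have e : (2 : L5 ℤ) = ⟨2, 0, 0, 0⟩ := by ext <;> rfl
  rw [e]
  ext
  · simpa using h0
  · simpa using h1
  · simpa using h2
  · simpa using h3

theorem r2_zero {a : A5 ℤ} (h : r2 a = 0) : ∃ b, a = 2 * b := by
  obtain ⟨m0, h0⟩ := r2L_zero (p := a.l0) (congrArg A5.l0 h)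
  obtain ⟨m1, h1⟩ := r2L_zero (p := a.l1) (congrArg A5.l1 h)
  obtain ⟨m2, h2⟩ := r2L_zero (p := a.l2) (congrArg A5.l2 h)
  obtain ⟨m3, h3⟩ := r2L_zero (p := a.l3) (congrArg A5.l3 h)
  refine ⟨⟨m0, m1, m2, m3⟩, ?_⟩
  have e : (2 : A5 ℤ) = ⟨2, 0, 0, 0⟩ := by ext <;> rfl
  rw [e]
  ext1
  · simpa using h0
  · simpa using h1
  · simpa using h2
  · simpa using h3

/-- size -/
def szL (p : L5 ℤ) : ℕ := p.c0.natAbs + p.c1.natAbs + p.c2.natAbs + p.c3.natAbs
/-- size -/
def sz (a : A5 ℤ) : ℕ := szL a.l0 + szL a.l1 + szL a.l2 + szL a.l3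

theorem szL_two (p : L5 ℤ) : szL (2 * p) = 2 * szL p := by
  have e : (2 : L5 ℤ) = ⟨2, 0, 0, 0⟩ := by ext <;> rfl
  rw [e]
  unfold szL
  simp [Int.natAbs_mul]
  ring

theorem sz_two (a : A5 ℤ) : sz (2 * a) = 2 * sz a := by
  have e : (2 : A5 ℤ) = ⟨2, 0, 0, 0⟩ := by ext <;> rfl
  have h0 : (2 * a).l0 = 2 * a.l0 := by rw [e]; simp
  have h1 : (2 * a).l1 = 2 * a.l1 := by rw [e]; simp
  have h2 : (2 * a).l2 = 2 * a.l2 := by rw [e]; simp
  have h3 : (2 * a).l3 = 2 * a.l3 := by rw [e]; simp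
  unfold sz
  rw [h0, h1, h2, h3, szL_two, szL_two, szL_two, szL_two]
  ring

theorem szL_eq_zero {p : L5 ℤ} (h : szL p = 0) : p = 0 := by
  unfold szL at h
  ext <;> simp <;> omega

theorem sz_eq_zero {a : A5 ℤ} (h : sz a = 0) : a = 0 := by
  unfold sz at h
  ext1
  · exact szL_eq_zero (by omega)
  · exact szL_eq_zero (by omega)
  · exact szL_eq_zero (by omega)
  · exact szL_eq_zero (by omega)

theorem two_cancel {a : A5 ℤ} (h : 2 * a = 0) : a = 0 := by
  apply sz_eq_zero
  have := sz_two a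
  rw [h] at this
  have h0 : sz 0 = 0 := rfl
  omega

theorem unit_int (c : A5 ℤ) (hc : (r2 c).l0 ≠ 0) : ∀ n : ℕ, ∀ a : A5 ℤ, sz a ≤ n → a * c = 0 →
    a = 0 := by
  intro n
  induction n with
  | zero => intro a ha _; exact sz_eq_zero (by omega)
  | succ n ih =>
    intro a ha h
    have h1 : r2 a * r2 c = 0 := by rw [← map_mul, h, map_zero]
    obtain ⟨b, rfl⟩ := r2_zero (unit_mod _ _ h1 hc)
    rw [mul_assoc] at h
    have h2 := two_cancel h
    rw [sz_two] at ha
    by_cases hb : sz b = 0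
    · rw [sz_eq_zero hb, mul_zero]
    · rw [ih b (by omega) h2, mul_zero]

/-- `x` in `A5 ℤ` -/
def xz5 : A5 ℤ := ⟨0, 1, 0, 0⟩

theorem r2_l0 (a : A5 ℤ) : (r2 a).l0 = r2L a.l0 := rfl
theorem r2_l1 (a : A5 ℤ) : (r2 a).l1 = r2L a.l1 := rfl
theorem r2_l2 (a : A5 ℤ) : (r2 a).l2 = r2L a.l2 := rfl
theorem r2_l3 (a : A5 ℤ) : (r2 a).l3 = r2L a.l3 := rfl

theorem r2L_27 (p : L5 ℤ) : r2L (-(27 * p)) = r2L p := by
  have h27 : r2L 27 = 1 := by
    rw [map_ofNat]; ext <;> rfl
  rw [map_neg, map_mul, h27, one_mul]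
  have h2 : ∀ q : L5 (ZMod 2), -q = q := by
    intro q
    have key : ∀ t : ZMod 2, -t = t := by decide
    ext
    · exact key q.c0
    · exact key q.c1
    · exact key q.c2
    · exact key q.c3
  exact h2 _

theorem normalise : ∀ n : ℕ, ∀ b : A5 ℤ, sz b ≤ n → b ≠ 0 →
    ∃ c : A5 ℤ, (r2 c).l0 ≠ 0 ∧ ∀ a, a * b = 0 → a * c = 0 := by
  intro n
  induction n with
  | zero => intro b hb hb0; exact absurd (sz_eq_zero (by omega)) hb0
  | succ n ih =>
    intro b hb hb0
    by_cases h0 : r2L b.l0 = 0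
    · obtain ⟨m0, hm0⟩ := r2L_zero h0
      by_cases h1 : r2L b.l1 = 0
      · obtain ⟨m1, hm1⟩ := r2L_zero h1
        by_cases h2 : r2L b.l2 = 0
        · obtain ⟨m2, hm2⟩ := r2L_zero h2
          by_cases h3 : r2L b.l3 = 0
          · -- `b` is even
            have h4 : r2 b = 0 := by
              ext1
              exacts [h0, h1, h2, h3]
            obtain ⟨b', rfl⟩ := r2_zero h4
            rw [sz_two] at hb
            have hb'0 : b' ≠ 0 := by rintro rfl; exact hb0 (mul_zero _)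
            have hb'1 : sz b' ≠ 0 := fun h => hb'0 (sz_eq_zero h)
            obtain ⟨c, hc, hc2⟩ := ih b' (by omega) hb'0
            refine ⟨c, hc, fun a ha => hc2 a ?_⟩
            apply two_cancel
            have : (2 : A5 ℤ) * (a * b') = a * (2 * b') := by
              rw [← mul_assoc, ← mul_assoc]
              have h2' : (2 : A5 ℤ) = ((2 : ℕ) : A5 ℤ) := by norm_num
              rw [h2', (Nat.cast_commute 2 a).eq]
            rw [this, ha]
          · -- i = 3
            refine ⟨⟨-(27 * b.l3), m0, m1, m2⟩, ?_, fun a ha => ?_⟩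
            · show r2L (-(27 * b.l3)) ≠ 0
              rw [r2L_27]; exact h3
            · apply two_cancel
              have e : (2 : A5 ℤ) * (a * ⟨-(27 * b.l3), m0, m1, m2⟩) = (a * b) * xz5 := by
                have e2 : (2 : A5 ℤ) = ⟨2, 0, 0, 0⟩ := by ext <;> rfl
                rw [e2]
                ext1
                · simp only [mul_l0, mul_l1, mul_l2, mul_l3, xz5, hm0, hm1, hm2, map_zero,
                    map_one, map_neg, map_mul, map_ofNat]
                  ring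
                · simp only [mul_l0, mul_l1, mul_l2, mul_l3, xz5, hm0, hm1, hm2, map_zero,
                    map_neg, map_mul, map_ofNat]
                  ring
                · simp only [mul_l0, mul_l1, mul_l2, mul_l3, xz5, hm0, hm1, hm2, map_zero,
                    map_one, map_neg, map_mul, map_ofNat]
                  ring
                · simp only [mul_l0, mul_l1, mul_l2, mul_l3, xz5, hm0, hm1, hm2, map_zero,
                    map_one, map_neg, map_mul, map_ofNat]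
                  ring
              rw [e, ha, zero_mul]
        · -- i = 2
          refine ⟨⟨-(27 * b.l2), -(27 * b.l3), m0, m1⟩, ?_, fun a ha => ?_⟩
          · show r2L (-(27 * b.l2)) ≠ 0
            rw [r2L_27]; exact h2
          · apply two_cancel
            have e : (2 : A5 ℤ) * (a * ⟨-(27 * b.l2), -(27 * b.l3), m0, m1⟩) =
                (a * b) * xz5 * xz5 := by
              have e2 : (2 : A5 ℤ) = ⟨2, 0, 0, 0⟩ := by ext <;> rfl
              rw [e2]
              ext1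
              · simp only [mul_l0, mul_l1, mul_l2, mul_l3, xz5, hm0, hm1, map_zero,
                  map_one, map_neg, map_mul, map_ofNat]
                ring
              · simp only [mul_l0, mul_l1, mul_l2, mul_l3, xz5, hm0, hm1, map_zero,
                  map_one, map_neg, map_mul, map_ofNat]
                ring
              · simp only [mul_l0, mul_l1, mul_l2, mul_l3, xz5, hm0, hm1, map_zero,
                  map_one, map_neg, map_mul, map_ofNat]
                ring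
              · simp only [mul_l0, mul_l1, mul_l2, mul_l3, xz5, hm0, hm1, map_zero,
                  map_one, map_neg, map_mul, map_ofNat]
                ring
            rw [e, ha, zero_mul, zero_mul]
      · -- i = 1
        refine ⟨⟨-(27 * b.l1), -(27 * b.l2), -(27 * b.l3), m0⟩, ?_, fun a ha => ?_⟩
        · show r2L (-(27 * b.l1)) ≠ 0
          rw [r2L_27]; exact h1
        · apply two_cancel
          have e : (2 : A5 ℤ) * (a * ⟨-(27 * b.l1), -(27 * b.l2), -(27 * b.l3), m0⟩) =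
              (a * b) * xz5 * xz5 * xz5 := by
            have e2 : (2 : A5 ℤ) = ⟨2, 0, 0, 0⟩ := by ext <;> rfl
            rw [e2]
            ext1
            · simp only [mul_l0, mul_l1, mul_l2, mul_l3, xz5, hm0, map_zero,
                map_one, map_neg, map_mul, map_ofNat]
              ring
            · simp only [mul_l0, mul_l1, mul_l2, mul_l3, xz5, hm0, map_zero,
                map_one, map_neg, map_mul, map_ofNat]
              ring
            · simp only [mul_l0, mul_l1, mul_l2, mul_l3, xz5, hm0, map_zero,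
                map_one, map_neg, map_mul, map_ofNat]
              ring
            · simp only [mul_l0, mul_l1, mul_l2, mul_l3, xz5, hm0, map_zero,
                map_one, map_neg, map_mul, map_ofNat]
              ring
          rw [e, ha, zero_mul, zero_mul, zero_mul]
    · exact ⟨b, h0, fun a ha => ha⟩

theorem int_domain (a b : A5 ℤ) (h : a * b = 0) (hb : b ≠ 0) : a = 0 := by
  obtain ⟨c, hc, hc2⟩ := normalise _ b le_rfl hb
  exact unit_int c hc _ a le_rfl (hc2 a h)

theorem exists_int_L (p : L5 ℚ) : ∃ n : ℕ, n ≠ 0 ∧ ∃ P : L5 ℤ,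
    (n : L5 ℚ) * p = L5.map (Int.castRingHom ℚ) P := by
  refine ⟨p.c0.den * p.c1.den * p.c2.den * p.c3.den, by
    have := p.c0.den_ne_zero; have := p.c1.den_ne_zero
    have := p.c2.den_ne_zero; have := p.c3.den_ne_zero
    positivity, ⟨p.c0.num * p.c1.den * p.c2.den * p.c3.den,
      p.c1.num * p.c0.den * p.c2.den * p.c3.den, p.c2.num * p.c0.den * p.c1.den * p.c3.den,
      p.c3.num * p.c0.den * p.c1.den * p.c2.den⟩, ?_⟩
  have h0 := Rat.mul_den_eq_num p.c0
  have h1 := Rat.mul_den_eq_num p.c1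
  have h2 := Rat.mul_den_eq_num p.c2
  have h3 := Rat.mul_den_eq_num p.c3
  ext
  · simp only [mul_c0, natCast_c0, natCast_c1, natCast_c2, natCast_c3, map_c0, eq_intCast]
    push_cast
    rw [← h0]
    ring
  · simp only [mul_c1, natCast_c0, natCast_c1, natCast_c2, natCast_c3, map_c1, eq_intCast]
    push_cast
    rw [← h1]
    ring
  · simp only [mul_c2, natCast_c0, natCast_c1, natCast_c2, natCast_c3, map_c2, eq_intCast]
    push_cast
    rw [← h2]
    ring
  · simp only [mul_c3, natCast_c0, natCast_c1, natCast_c2, natCast_c3, map_c3, eq_intCast]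
    push_cast
    rw [← h3]
    ring

theorem exists_int (a : A5 ℚ) : ∃ n : ℕ, n ≠ 0 ∧ ∃ b : A5 ℤ, (n : A5 ℚ) * a = toQ b := by
  obtain ⟨n0, hn0, P0, h0⟩ := exists_int_L a.l0
  obtain ⟨n1, hn1, P1, h1⟩ := exists_int_L a.l1
  obtain ⟨n2, hn2, P2, h2⟩ := exists_int_L a.l2
  obtain ⟨n3, hn3, P3, h3⟩ := exists_int_L a.l3
  refine ⟨n0 * n1 * n2 * n3, by positivity,
    ⟨((n1 * n2 * n3 : ℕ) : L5 ℤ) * P0, ((n0 * n2 * n3 : ℕ) : L5 ℤ) * P1,
      ((n0 * n1 * n3 : ℕ) : L5 ℤ) * P2, ((n0 * n1 * n2 : ℕ) : L5 ℤ) * P3⟩, ?_⟩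
  have key : ∀ (k : ℕ) (l : L5 ℤ), L5.map (Int.castRingHom ℚ) ((k : L5 ℤ) * l) =
      (k : L5 ℚ) * L5.map (Int.castRingHom ℚ) l := by
    intro k l; rw [map_mul, map_natCast]
  ext1
  · show _ = L5.map (Int.castRingHom ℚ) (((n1 * n2 * n3 : ℕ) : L5 ℤ) * P0)
    rw [key, ← h0]
    simp only [mul_l0, natCast_l0, natCast_l1, natCast_l2, natCast_l3, zero_mul, add_zero,
      mul_zero, sub_zero]
    push_cast; ring
  · show _ = L5.map (Int.castRingHom ℚ) (((n0 * n2 * n3 : ℕ) : L5 ℤ) * P1)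
    rw [key, ← h1]
    simp only [mul_l1, natCast_l0, natCast_l1, natCast_l2, natCast_l3, zero_mul, add_zero,
      mul_zero, sub_zero]
    push_cast; ring
  · show _ = L5.map (Int.castRingHom ℚ) (((n0 * n1 * n3 : ℕ) : L5 ℤ) * P2)
    rw [key, ← h2]
    simp only [mul_l2, natCast_l0, natCast_l1, natCast_l2, natCast_l3, zero_mul, add_zero,
      mul_zero, sub_zero]
    push_cast; ring
  · show _ = L5.map (Int.castRingHom ℚ) (((n0 * n1 * n2 : ℕ) : L5 ℤ) * P3)
    rw [key, ← h3]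
    simp only [mul_l3, natCast_l0, natCast_l1, natCast_l2, natCast_l3, zero_mul, add_zero]
    push_cast; ring

theorem natCast_cancel {n : ℕ} (hn : n ≠ 0) {a : A5 ℚ} (h : (n : A5 ℚ) * a = 0) : a = 0 := by
  have h1 : (n : A5 ℚ) = algebraMap ℚ (A5 ℚ) (n : ℚ) := by rw [map_natCast]
  rw [h1, ← Algebra.smul_def] at h
  exact (smul_eq_zero.mp h).resolve_left (by exact_mod_cast hn)

theorem rat_domain (a b : A5 ℚ) (h : a * b = 0) (hb : b ≠ 0) : a = 0 := by
  obtain ⟨n, hn, A, hA⟩ := exists_int a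
  obtain ⟨m, hm, B, hB⟩ := exists_int b
  have h1 : toQ (A * B) = 0 := by
    rw [map_mul, ← hA, ← hB]
    have : (n : A5 ℚ) * a * ((m : A5 ℚ) * b) = (n : A5 ℚ) * ((m : A5 ℚ) * (a * b)) := by
      rw [mul_assoc, ← mul_assoc a, ← (Nat.cast_commute m a).eq, mul_assoc (m : A5 ℚ)]
    rw [this, h, mul_zero, mul_zero]
  have h2 : A * B = 0 := toQ_injective (by rw [h1, map_zero])
  have hB0 : B ≠ 0 := by
    rintro rfl
    rw [map_zero] at hB
    exact hb (natCast_cancel hm hB)
  have hA0 := int_domain A B h2 hB0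
  rw [hA0, map_zero] at hA
  exact natCast_cancel hn hA

/-- `A5 ℚ` is a division algebra -/
theorem inv_A5Q (y : A5 ℚ) (hy : y ≠ 0) : ∃ y', y * y' = 1 ∧ y' * y = 1 := by
  have hinj : Function.Injective (LinearMap.mulRight ℚ y) := by
    rw [← LinearMap.ker_eq_bot, LinearMap.ker_eq_bot']
    intro a ha
    exact rat_domain a y ha hy
  have hsurj := LinearMap.injective_iff_surjective.mp hinj
  obtain ⟨y', hy'⟩ := hsurj 1
  have h1 : y' * y = 1 := hy'
  have hy'0 : y' ≠ 0 := by rintro rfl; rw [zero_mul] at h1; exact zero_ne_one h1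
  refine ⟨y', ?_, h1⟩
  have h2 : (y * y' - 1) * y = 0 := by
    rw [sub_mul, one_mul, mul_assoc, h1, mul_one, sub_self]
  exact sub_eq_zero.mp (rat_domain _ _ h2 hy)

end Pool.Agent.Helper84.NG
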