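import Mathlib

/-!
MP_0fb3e0_gt, part CA. C6 (arithmetic): the norm of `ℚ(ζ₅)` does not take the value `1/2916`
(2 is inert and `2916 = 4 · 3 ^ 6`).
-/

set_option autoImplicit false

namespace Pool.Agent.Helper84.NG

/-- the norm of `a + b z + c z² + d z³`, `z` a root of `1 + z + z² + z³ + z⁴` -/
def N4 {R : Type*} [CommRing R] (a b c d : R) : R :=
  a^4 - a^3*b - a^3*c - a^3*d + a^2*b^2 + 2*a^2*b*c + 2*a^2*b*d + a^2*c^2 - 3*a^2*c*d + a^2*d^2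
  - a*b^3 - 3*a*b^2*c + 2*a*b^2*d + 2*a*b*c^2 - a*b*c*d - 3*a*b*d^2 - a*c^3 + 2*a*c^2*d
  + 2*a*c*d^2 - a*d^3 + b^4 - b^3*c - b^3*d + b^2*c^2 + 2*b^2*c*d + b^2*d^2 - b*c^3
  - 3*b*c^2*d + 2*b*c*d^2 - b*d^3 + c^4 - c^3*d + c^2*d^2 - c*d^3 + d^4

theorem N4_mod_two : ∀ a b c d : ZMod 2, N4 a b c d = 0 → a = 0 ∧ b = 0 ∧ c = 0 ∧ d = 0 := by
  decide

theorem N4_even (a b c d : ℤ) (h : 2 ∣ N4 a b c d) : 2 ∣ a ∧ 2 ∣ b ∧ 2 ∣ c ∧ 2 ∣ d := by
  have h1 : ((N4 a b c d : ℤ) : ZMod 2) = 0 := (ZMod.intCast_zmod_eq_zero_iff_dvd _ 2).mpr h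
  have h2 : ((N4 a b c d : ℤ) : ZMod 2) = N4 (a : ZMod 2) b c d := by
    unfold N4; push_cast; rfl
  rw [h2] at h1
  obtain ⟨ha, hb, hc, hd⟩ := N4_mod_two _ _ _ _ h1
  exact ⟨(ZMod.intCast_zmod_eq_zero_iff_dvd _ 2).mp ha, (ZMod.intCast_zmod_eq_zero_iff_dvd _ 2).mp hb,
    (ZMod.intCast_zmod_eq_zero_iff_dvd _ 2).mp hc, (ZMod.intCast_zmod_eq_zero_iff_dvd _ 2).mp hd⟩

theorem no_sol : ∀ n : ℕ, ∀ a b c d D : ℤ, D.natAbs ≤ n → 2916 * N4 a b c d = D ^ 4 → D = 0 := by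
  intro n
  induction n with
  | zero => intro a b c d D hD _; omega
  | succ n ih =>
    intro a b c d D hD h
    have h2D : (2 : ℤ) ∣ D ^ 4 := ⟨1458 * N4 a b c d, by rw [← h]; ring⟩
    obtain ⟨E, rfl⟩ := Int.prime_two.dvd_of_dvd_pow h2D
    have h1 : 729 * N4 a b c d = 4 * E ^ 4 := by nlinarith
    have h2 : (2 : ℤ) ∣ N4 a b c d := by omega
    obtain ⟨⟨a', rfl⟩, ⟨b', rfl⟩, ⟨c', rfl⟩, ⟨d', rfl⟩⟩ := N4_even a b c d h2
    have h3 : N4 (2 * a') (2 * b') (2 * c') (2 * d') = 16 * N4 a' b' c' d' := by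
      unfold N4; ring
    rw [h3] at h1
    have h4 : 2916 * N4 a' b' c' d' = E ^ 4 := by linarith
    by_cases hE : E = 0
    · simp [hE]
    · exact absurd (ih a' b' c' d' E (by omega) h4) hE

/-- C6, arithmetic part -/
theorem norm_ne (a b c d : ℚ) : 2916 * N4 a b c d ≠ 1 := by
  intro h
  obtain ⟨D, hD0, a', b', c', d', ha, hb, hc, hd⟩ : ∃ D : ℤ, D ≠ 0 ∧ ∃ a' b' c' d' : ℤ,
      (D : ℚ) * a = a' ∧ (D : ℚ) * b = b' ∧ (D : ℚ) * c = c' ∧ (D : ℚ) * d = d' := by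
    refine ⟨a.den * b.den * c.den * d.den, by
      have := a.den_ne_zero; have := b.den_ne_zero
      have := c.den_ne_zero; have := d.den_ne_zero
      positivity, a.num * b.den * c.den * d.den, b.num * a.den * c.den * d.den,
      c.num * a.den * b.den * d.den, d.num * a.den * b.den * c.den, ?_, ?_, ?_, ?_⟩
    · push_cast
      have := Rat.mul_den_eq_num a
      rw [← this]; ring
    · push_cast
      have := Rat.mul_den_eq_num b
      rw [← this]; ring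
    · push_cast
      have := Rat.mul_den_eq_num c
      rw [← this]; ring
    · push_cast
      have := Rat.mul_den_eq_num d
      rw [← this]; ring
  have h1 : (2916 : ℚ) * N4 (a' : ℚ) b' c' d' = (D : ℚ) ^ 4 := by
    rw [← ha, ← hb, ← hc, ← hd]
    calc (2916 : ℚ) * N4 ((D : ℚ) * a) (D * b) (D * c) (D * d) =
        (D : ℚ) ^ 4 * (2916 * N4 a b c d) := by unfold N4; ring
      _ = _ := by rw [h, mul_one]
  have h2 : 2916 * N4 a' b' c' d' = D ^ 4 := by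
    have : ((2916 * N4 a' b' c' d' : ℤ) : ℚ) = ((D ^ 4 : ℤ) : ℚ) := by
      rw [Int.cast_pow, ← h1]
      unfold N4; push_cast; rfl
    exact_mod_cast this
  exact hD0 (no_sol _ a' b' c' d' D le_rfl h2)

end Pool.Agent.Helper84.NG
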