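import Mathlib
import Pool.Agent.Helper84.NG.Inst
import Pool.Agent.Helper84.NG.Norm

/-!
MP_0fb3e0_gt. The division algebra `A5 ℚ` has no anti-automorphism.
-/

set_option autoImplicit false

namespace Pool.Agent.Helper84.NG

open H77T2 L5 A5

/-- `z` in `A5 ℚ` -/
def zq : A5 ℚ := A5.z
/-- `x` in `A5 ℚ` -/
def xq : A5 ℚ := A5.x
/-- powers of `z` -/
def z2 : A5 ℚ := ⟨⟨0, 0, 1, 0⟩, 0, 0, 0⟩
def z3 : A5 ℚ := ⟨⟨0, 0, 0, 1⟩, 0, 0, 0⟩
def z4 : A5 ℚ := ⟨⟨-1, -1, -1, -1⟩, 0, 0, 0⟩
/-- the scalar `-54` -/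
def mt : A5 ℚ := ⟨⟨-54, 0, 0, 0⟩, 0, 0, 0⟩

theorem zz2 : zq * zq = z2 := by decide +kernel
theorem zz3 : zq * z2 = z3 := by decide +kernel
theorem zz4 : zq * z3 = z4 := by decide +kernel
theorem zz5 : zq * z4 = 1 := by decide +kernel
theorem zsum : zq + z2 + z3 + z4 = -1 := by decide +kernel
theorem x4 : xq * xq * xq * xq = mt := by decide +kernel
theorem xz : xq * zq = zq * zq * xq := by decide +kernel

theorem c21 : xq * xq * xq * zq * xq = mt * z3 := by decide +kernel
theorem c22 : xq * xq * xq * z2 * xq = mt * zq := by decide +kernel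
theorem c23 : xq * xq * xq * z3 * xq = mt * z4 := by decide +kernel
theorem c24 : xq * xq * xq * z4 * xq = mt * z2 := by decide +kernel
theorem c31 : xq * xq * zq * xq * xq = mt * z4 := by decide +kernel
theorem c32 : xq * xq * z2 * xq * xq = mt * z3 := by decide +kernel
theorem c33 : xq * xq * z3 * xq * xq = mt * z2 := by decide +kernel
theorem c34 : xq * xq * z4 * xq * xq = mt * zq := by decide +kernel
theorem c41 : xq * zq * xq * xq * xq = mt * z2 := by decide +kernel
theorem c42 : xq * z2 * xq * xq * xq = mt * z4 := by decide +kernel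
theorem c43 : xq * z3 * xq * xq * xq = mt * zq := by decide +kernel
theorem c44 : xq * z4 * xq * xq * xq = mt * z3 := by decide +kernel

/-- the averaging operator -/
noncomputable def PP5 (w a : A5 ℚ) : A5 ℚ :=
  a + zq * a * w + z2 * a * (w * w) + z3 * a * (w * w * w) + z4 * a * (w * w * w * w)

theorem PP5_sum (w : A5 ℚ) (hw : w + w * w + w * w * w + w * w * w * w = -1) :
    xq * xq * xq * xq * PP5 w 1 + xq * xq * xq * PP5 w xq + xq * xq * PP5 w (xq * xq) +
      xq * PP5 w (xq * xq * xq) = 5 * mt := by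
  unfold PP5
  simp only [mul_add, ← mul_assoc, mul_one, c21, c22, c23, c24, c31, c32,
    c33, c34, c41, c42, c43, c44, x4]
  have h1 : mt * (zq + z2 + z3 + z4) * (w + w * w + w * w * w + w * w * w * w) = mt := by
    rw [zsum, hw]; simp
  simp only [mul_add, add_mul, ← mul_assoc] at h1
  have h5 : (5 : A5 ℚ) * mt = mt + mt + mt + mt + mt := by
    decide +kernel
  rw [h5]
  rw [← sub_eq_zero] at h1 ⊢
  rw [← h1]
  abel

theorem PP5_comm (u w a : A5 ℚ) (hw4 : w * w * w * w = u) (hwu : w * u = 1) :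
    zq * PP5 w a = PP5 w a * u := by
  unfold PP5
  have h1 : zq * (z4 * a * (w * w * w * w)) = a * u := by
    calc zq * (z4 * a * (w * w * w * w)) = (zq * z4) * a * (w * w * w * w) := by
          simp only [mul_assoc]
      _ = _ := by rw [zz5, one_mul, hw4]
  have h2 : zq * (z3 * a * (w * w * w)) = z4 * a * (w * w * w * w) * u := by
    calc zq * (z3 * a * (w * w * w)) = (zq * z3) * a * (w * w * w) * 1 := by
          simp only [mul_assoc, mul_one]
      _ = _ := by rw [zz4, ← hwu]; simp only [mul_assoc]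
  have h3 : zq * (z2 * a * (w * w)) = z3 * a * (w * w * w) * u := by
    calc zq * (z2 * a * (w * w)) = (zq * z2) * a * (w * w) * 1 := by
          simp only [mul_assoc, mul_one]
      _ = _ := by rw [zz3, ← hwu]; simp only [mul_assoc]
  have h4 : zq * (zq * a * w) = z2 * a * (w * w) * u := by
    calc zq * (zq * a * w) = (zq * zq) * a * w * 1 := by
          simp only [mul_assoc, mul_one]
      _ = _ := by rw [zz2, ← hwu]; simp only [mul_assoc]
  have h5 : zq * a = zq * a * w * u := by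
    rw [mul_assoc _ _ u, hwu, mul_one]
  simp only [mul_add, add_mul]
  rw [h1, h2, h3, h4, ← h5]
  abel

/-- elements with `z y = y z²` are in `L5 x³` -/
theorem coords_of_comm (y : A5 ℚ) (h : zq * y = y * z2) : y.l0 = 0 ∧ y.l1 = 0 ∧ y.l2 = 0 := by
  have h0 := congrArg (fun a : A5 ℚ => a.l0) h
  have h1 := congrArg (fun a : A5 ℚ => a.l1) h
  have h2 := congrArg (fun a : A5 ℚ => a.l2) h
  simp only [mul_l0, mul_l1, mul_l2, zq, A5.z, z2, map_zero, mul_zero, zero_mul, add_zero,
    sub_zero, zero_add] at h0 h1 h2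
  refine ⟨?_, ?_, ?_⟩
  · have e0 := congrArg L5.c0 h0
    have e1 := congrArg L5.c1 h0
    have e2 := congrArg L5.c2 h0
    have e3 := congrArg L5.c3 h0
    simp [L5.z] at e0 e1 e2 e3
    ext <;> simp <;> linarith
  · have e0 := congrArg L5.c0 h1
    have e1 := congrArg L5.c1 h1
    have e2 := congrArg L5.c2 h1
    have e3 := congrArg L5.c3 h1
    simp [L5.z] at e0 e1 e2 e3
    ext <;> simp <;> linarith
  · have e0 := congrArg L5.c0 h2
    have e1 := congrArg L5.c1 h2
    have e2 := congrArg L5.c2 h2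
    have e3 := congrArg L5.c3 h2
    simp [L5.z] at e0 e1 e2 e3
    ext <;> simp <;> linarith

theorem norm_c0 (m : L5 ℚ) : (m * sg m * sg (sg m) * sg (sg (sg m))).c0 =
    N4 m.c0 m.c1 m.c2 m.c3 := by
  simp only [mul_c0, mul_c1, mul_c2, mul_c3, sg_c0, sg_c1, sg_c2, sg_c3]
  unfold N4
  ring

theorem no_fourth_root (y : A5 ℚ) (h : zq * y = y * z2) (h4 : y * y * y * y = mt) : False := by
  obtain ⟨h0, h1, h2⟩ := coords_of_comm y h
  obtain ⟨m, hm⟩ : ∃ m, m = y.l3 := ⟨_, rfl⟩
  obtain ⟨q, hq⟩ : ∃ q, q = -(54 * (m * sg (sg (sg m)))) := ⟨_, rfl⟩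
  have hyy : y * y = ⟨0, 0, q, 0⟩ := by
    ext1
    · simp [h0, h1, h2]
    · simp [h0, h1, h2]
    · simp only [mul_l2, h0, h1, h2, ← hm, hq]; simp
    · simp [h0, h1, h2]
  have hy4 : y * y * y * y = ⟨-(54 * (q * sg (sg q))), 0, 0, 0⟩ := by
    rw [mul_assoc (y * y), hyy]
    ext1
    · simp
    · simp
    · simp
    · simp
  rw [hy4] at h4
  have h5 := congrArg (fun a : A5 ℚ => a.l0) h4
  simp only [mt] at h5
  have h6 : -(54 * (q * sg (sg q))) = -(54 * (2916 * (m * sg m * sg (sg m) * sg (sg (sg m))))) := by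
    rw [hq]
    simp only [map_neg, map_mul, map_ofNat, sg_sg_sg_sg]
    ring
  rw [h6] at h5
  have h7 := congrArg L5.c0 h5
  have h8 : ∀ p : L5 ℚ, (-(54 * (2916 * p))).c0 = -(54 * (2916 * p.c0)) := by
    intro p
    have e1 : (54 : L5 ℚ) = ⟨54, 0, 0, 0⟩ := by ext <;> rfl
    have e2 : (2916 : L5 ℚ) = ⟨2916, 0, 0, 0⟩ := by ext <;> rfl
    rw [e1, e2]
    simp
  rw [h8, norm_c0] at h7
  exact norm_ne m.c0 m.c1 m.c2 m.c3 (by linarith)

/-- no anti-automorphism -/
theorem no_anti (hinv : ∀ y : A5 ℚ, y ≠ 0 → ∃ y', y * y' = 1 ∧ y' * y = 1)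
    (σ : A5 ℚ →ₗ[ℚ] A5 ℚ) (h1 : σ 1 = 1) : ¬ ∀ a b, σ (a * b) = σ b * σ a := by
  intro hm
  obtain ⟨u, hu⟩ : ∃ u, u = σ zq := ⟨_, rfl⟩
  obtain ⟨y, hy⟩ : ∃ y, y = σ xq := ⟨_, rfl⟩
  have hs2 : σ z2 = u * u := by rw [← zz2, hm, hu]
  have hs3 : σ z3 = u * u * u := by rw [← zz3, hm, hs2, ← hu]
  have hs4 : σ z4 = u * u * u * u := by rw [← zz4, hm, hs3, ← hu]
  have hu5 : u * u * u * u * u = 1 := by
    have := congrArg σ zz5
    rwa [hm, hs4, ← hu, h1] at this
  have husum : u + u * u + u * u * u + u * u * u * u = -1 := by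
    have := congrArg σ zsum
    rwa [map_add, map_add, map_add, hs2, hs3, hs4, ← hu, map_neg, h1] at this
  have huy : u * y = y * (u * u) := by
    have := congrArg σ xz
    rwa [hm, hm, hm, ← hu, ← hy] at this
  have hy4 : y * y * y * y = mt := by
    have := congrArg σ x4
    rw [hm, hm, hm, ← hy] at this
    have h2 : σ mt = mt := by
      have h3 : mt = (-54 : ℚ) • (1 : A5 ℚ) := by
        ext <;> simp [mt]
      rw [h3, map_smul, h1]
    rw [h2] at this
    rw [← this]
    simp only [mul_assoc]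
  obtain ⟨w, hw⟩ : ∃ w, w = u * u * u * u := ⟨_, rfl⟩
  have hwu : w * u = 1 := by rw [hw]; exact hu5
  have huw : u * w = 1 := by rw [hw, ← hu5]; simp only [mul_assoc]
  have hw2 : w * w = u * u * u := by
    calc w * w = w * (u * (u * u * u)) := by rw [hw]; simp only [mul_assoc]
      _ = (w * u) * (u * u * u) := by simp only [mul_assoc]
      _ = _ := by rw [hwu, one_mul]
  have hw3 : w * w * w = u * u := by
    calc w * w * w = w * (w * w) := mul_assoc _ _ _
      _ = w * (u * (u * u)) := by rw [hw2, mul_assoc]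
      _ = (w * u) * (u * u) := by simp only [mul_assoc]
      _ = _ := by rw [hwu, one_mul]
  have hw4 : w * w * w * w = u := by
    calc w * w * w * w = w * (w * w * w) := by simp only [mul_assoc]
      _ = (w * u) * u := by rw [hw3, mul_assoc]
      _ = u := by rw [hwu, one_mul]
  have hwsum : w + w * w + w * w * w + w * w * w * w = -1 := by
    rw [hw4, hw3, hw2, hw, ← husum]; abel
  -- a non-zero `b`
  obtain ⟨a, ha⟩ : ∃ a, PP5 w a ≠ 0 := by
    by_contra hcon
    push Not at hcon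
    have := PP5_sum w hwsum
    rw [hcon, hcon, hcon, hcon] at this
    simp only [mul_zero, add_zero] at this
    have h5 := congrArg (fun a : A5 ℚ => a.l0.c0) this
    have h6 : ((5 : A5 ℚ) * mt).l0.c0 = -270 := by decide +kernel
    simp only [zero_l0, zero_c0] at h5
    rw [h6] at h5
    norm_num at h5
  have hbc := PP5_comm u w a hw4 hwu
  obtain ⟨b, hb⟩ : ∃ b, b = PP5 w a := ⟨_, rfl⟩
  rw [← hb] at ha hbc
  obtain ⟨b', hbb', hb'b⟩ := hinv b ha
  have hbub : b * u * b' = zq := by rw [← hbc, mul_assoc, hbb', mul_one]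
  apply no_fourth_root (b * y * b')
  · calc zq * (b * y * b') = (zq * b) * y * b' := by simp only [mul_assoc]
      _ = b * (u * y) * b' := by rw [hbc]; simp only [mul_assoc]
      _ = b * y * 1 * u * 1 * u * b' := by rw [huy]; simp only [mul_assoc, mul_one]
      _ = b * y * (b' * b) * u * (b' * b) * u * b' := by rw [hb'b]
      _ = b * y * b' * ((b * u * b') * (b * u * b')) := by simp only [mul_assoc]
      _ = _ := by rw [hbub, zz2]
  · calc b * y * b' * (b * y * b') * (b * y * b') * (b * y * b') =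
        b * y * (b' * b) * y * (b' * b) * y * (b' * b) * y * b' := by simp only [mul_assoc]
      _ = b * (y * y * y * y) * b' := by rw [hb'b]; simp only [mul_assoc, mul_one]
      _ = b * mt * b' := by rw [hy4]
      _ = mt * (b * b') := by
          have h3 : mt = algebraMap ℚ (A5 ℚ) (-54) := rfl
          rw [h3, ← Algebra.commutes, mul_assoc]
      _ = mt := by rw [hbb', mul_one]

end Pool.Agent.Helper84.NG
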