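import Pool.Agent.Helper65.FN.NoHyp
import Pool.Agent.Helper84.NG.Anti
import Pool.Agent.Helper84.NG.Nrm

/-!
MP_0fb3e0_gt. No totally geodesic hypersurface for cocompact discrete groups of isometries of `H^5`
given by invertible elements of `A5 ℚ`.
-/

set_option autoImplicit false

open Matrix H77T2

namespace Pool.Agent.Helper84.NG

open Pool.Agent.Helper65.PK

/-- the embedding `A5 ℚ → A5 ℝ` -/
noncomputable def toR : A5 ℚ →+* A5 ℝ := A5.map (algebraMap ℚ ℝ)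

theorem toR_inj : Function.Injective toR := by
  intro a b h
  have key : ∀ p q : L5 ℚ, L5.map (algebraMap ℚ ℝ) p = L5.map (algebraMap ℚ ℝ) q → p = q := by
    intro p q hpq
    have hinj : Function.Injective (algebraMap ℚ ℝ) := (algebraMap ℚ ℝ).injective
    ext1
    · exact hinj (congrArg L5.c0 hpq)
    · exact hinj (congrArg L5.c1 hpq)
    · exact hinj (congrArg L5.c2 hpq)
    · exact hinj (congrArg L5.c3 hpq)
  ext1
  · exact key _ _ (congrArg A5.l0 h)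
  · exact key _ _ (congrArg A5.l1 h)
  · exact key _ _ (congrArg A5.l2 h)
  · exact key _ _ (congrArg A5.l3 h)

theorem toR_of (q : ℚ) : toR (A5.of q) = A5.of (q : ℝ) := by
  ext <;> simp [toR, A5.map, A5.of, L5.of, L5.map]

theorem toR_real (d : A5 ℚ) (r : ℝ) (h : toR d = algebraMap ℝ (A5 ℝ) r) :
    ∃ q : ℚ, d = algebraMap ℚ (A5 ℚ) q := by
  refine ⟨d.l0.c0, ?_⟩
  apply toR_inj
  rw [h, algebraMapA, algebraMapA, toR_of]
  have h0 : (algebraMap ℚ ℝ) d.l0.c0 = r := congrArg (fun a : A5 ℝ => a.l0.c0) h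
  rw [← h0]
  rfl

theorem no_hypersurface_A5 (hinv : ∀ y : A5 ℚ, y ≠ 0 → ∃ y', y * y' = 1 ∧ y' * y = 1)
    {Γ : Subgroup (GL (Fin 6) ℝ)} (hΓ : Γ ≤ IsomHyp 5)
    (hcoc : ∃ R : ℝ, ∀ x ∈ Hyp 5, ∃ γ ∈ Γ, (γ.1 *ᵥ x) 0 ≤ R)
    (hfin : ∀ C : ℝ, {γ : GL (Fin 6) ℝ | γ ∈ Γ ∧ (γ.1 *ᵥ e0 5) 0 ≤ C}.Finite)
    (hrat : ∀ γ ∈ Γ, ∃ d : A5 ℚ, (∃ d', d * d' = 1 ∧ d' * d = 1) ∧
      ∀ x, toR d * psi x * st (toR d) = psi (γ.1 *ᵥ x)) :
    ¬ HasGeodesicHypersurface 4 Γ :=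
  Pool.Agent.Helper65.FN.no_hypersurface (A := A5 ℝ) (D := A5 ℚ) finrankA model
    (fun y hy => by obtain ⟨y', h, -⟩ := hinv y hy; exact ⟨y', h⟩)
    toR toR_inj toR_real (no_anti hinv) hΓ hcoc hfin hrat

end Pool.Agent.Helper84.NG
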