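import Mathlib
import Pool.Agent.Helper84.NG.Comm

/-!
MP_0fb3e0_gt, part CA. If the stabilizer of a hyperplane is cocompact, only scalars commute with it.
-/

set_option autoImplicit false

namespace Pool.Agent.Helper84.NG

open H77T2

variable {A : Type*} [Ring A] [Algebra ℝ A] {n : ℕ}

theorem bilin_bound {k : ℕ} (β : (Fin k → ℝ) →ₗ[ℝ] (Fin k → ℝ) →ₗ[ℝ] ℝ) (R : ℝ) :
    ∃ M : ℝ, ∀ y : Fin k → ℝ, (∀ i, |y i| ≤ R) → β y y ≤ M := by
  refine ⟨∑ i, ∑ j, R * R * |β (Pi.single i 1) (Pi.single j 1)|, fun y hy => ?_⟩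
  have h1 : y = ∑ i, y i • (Pi.single i (1 : ℝ) : Fin k → ℝ) := by
    funext j
    simp [Finset.sum_apply, Pi.single_apply]
  have h2 : β y y = ∑ i, ∑ j, y i * (y j * β (Pi.single i 1) (Pi.single j 1)) := by
    conv_lhs => rw [h1]
    simp only [map_sum, LinearMap.sum_apply, map_smul, LinearMap.smul_apply, smul_eq_mul,
      Finset.mul_sum]
    rw [Finset.sum_comm]
    refine Finset.sum_congr rfl fun i _ => Finset.sum_congr rfl fun j _ => by ring
  rw [h2]
  apply Finset.sum_le_sum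
  intro i _
  apply Finset.sum_le_sum
  intro j _
  have hR : 0 ≤ R := le_trans (abs_nonneg _) (hy i)
  calc y i * (y j * β (Pi.single i 1) (Pi.single j 1)) ≤
      |y i * (y j * β (Pi.single i 1) (Pi.single j 1))| := le_abs_self _
    _ = |y i| * |y j| * |β (Pi.single i 1) (Pi.single j 1)| := by
        rw [abs_mul, abs_mul, mul_assoc]
    _ ≤ _ := by
        apply mul_le_mul_of_nonneg_right _ (abs_nonneg _)
        exact mul_le_mul (hy i) (hy j) (abs_nonneg _) hR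

theorem abs_le_of_Hyp {m : ℕ} {y : Fin (m + 1) → ℝ} (hy : y ∈ Hyp m) {R : ℝ} (hR : y 0 ≤ R)
    (i : Fin (m + 1)) : |y i| ≤ R := by
  obtain ⟨h1, h2⟩ := hy
  refine Fin.cases ?_ (fun j => ?_) i
  · rw [abs_of_pos h2]; exact hR
  · apply abs_le_of_sq_le_sq _ (by linarith)
    unfold mink at h1
    have h3 : y j.succ * y j.succ ≤ ∑ i : Fin m, y i.succ * y i.succ :=
      Finset.single_le_sum (f := fun i : Fin m => y i.succ * y i.succ)
        (fun i _ => mul_self_nonneg _) (Finset.mem_univ j)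
    nlinarith

/-- the commutant of a cocompact stabilizer is the scalars -/
theorem scalar_of_cocompact [Nontrivial A] [FiniteDimensional ℝ A]
    (hfin : Module.finrank ℝ A = 16) {t : A →ₗ[ℝ] ℝ} {st : A →ₗ[ℝ] A}
    {ψ : (Fin (5 + 1) → ℝ) →ₗ[ℝ] A} (H : Model 5 t st ψ)
    {φ : (Fin (4 + 1) → ℝ) →ₗ[ℝ] (Fin (5 + 1) → ℝ)}
    (hφ : ∀ x y, mink 5 (φ x) (φ y) = mink 4 x y) (hpos : 0 < φ (Pi.single 0 1) 0) (c : A)
    (Λ : Set A) (hinv : ∀ d ∈ Λ, ∃ d', d * d' = 1 ∧ d' * d = 1)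
    (hcoc : ∃ R : ℝ, ∀ y ∈ Hyp 4, ∃ d ∈ Λ, ∃ y' ∈ Hyp 4, y' 0 ≤ R ∧
      d * ψ (φ y) * st d = ψ (φ y'))
    (hc : ∀ d ∈ Λ, d * c = c * d) :
    ∃ r : ℝ, c = algebraMap ℝ A r := by
  obtain ⟨R, hR⟩ := hcoc
  -- the function as a bilinear form
  let L : (Fin (4 + 1) → ℝ) →ₗ[ℝ] A :=
    ((LinearMap.proj (0 : Fin (5 + 1))).comp φ).smulRight ((2 : ℝ) • (1 : A)) - ψ.comp φ
  have hL : ∀ y, L y = (2 * φ y 0) • (1 : A) - ψ (φ y) := by
    intro y
    simp only [L, LinearMap.sub_apply, LinearMap.smulRight_apply, LinearMap.comp_apply,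
      LinearMap.proj_apply, smul_smul]
    rw [mul_comm]
  let β : (Fin (4 + 1) → ℝ) →ₗ[ℝ] (Fin (4 + 1) → ℝ) →ₗ[ℝ] ℝ :=
    LinearMap.mk₂ ℝ (fun x y => t (L x * c * ψ (φ y) * st c))
      (fun x x' y => by rw [map_add, add_mul, add_mul, add_mul, map_add])
      (fun a x y => by rw [map_smul, smul_mul_assoc, smul_mul_assoc, smul_mul_assoc, map_smul])
      (fun x y y' => by rw [map_add, map_add, mul_add, add_mul, map_add])
      (fun a x y => by rw [map_smul, map_smul, mul_smul_comm, smul_mul_assoc, map_smul])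
  obtain ⟨M, hM⟩ := bilin_bound β R
  have hβ : ∀ x y, β x y = t (L x * c * ψ (φ y) * st c) := fun x y => rfl
  apply scalar_of_bounded hfin H hφ hpos c M
  intro y hy
  obtain ⟨d, hd, y', hy', hy'R, hdy⟩ := hR y hy
  obtain ⟨d', hdd', hd'd⟩ := hinv d hd
  have h1 := hM y' (abs_le_of_Hyp hy' hy'R)
  rw [hβ, hL] at h1
  refine le_trans (le_of_eq ?_) h1
  -- inverses
  have hmy : mink 5 (φ y) (φ y) = 1 := by rw [hφ]; exact hy.1
  have hmy' : mink 5 (φ y') (φ y') = 1 := by rw [hφ]; exact hy'.1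
  have i1 := inv_left H (φ y)
  have i2 := inv_right H (φ y)
  have i3 := inv_left H (φ y')
  rw [hmy, one_smul] at i1 i2
  rw [hmy', one_smul] at i3
  obtain ⟨q, hq⟩ : ∃ q, q = (2 * φ y 0) • (1 : A) - ψ (φ y) := ⟨_, rfl⟩
  obtain ⟨q', hq'⟩ : ∃ q', q' = (2 * φ y' 0) • (1 : A) - ψ (φ y') := ⟨_, rfl⟩
  rw [← hq] at i1 i2 ⊢
  rw [← hq'] at i3 ⊢
  have hsd : st d * st d' = 1 := by rw [← H.mul, hd'd, H.one]
  have hsd' : st d' * st d = 1 := by rw [← H.mul, hdd', H.one]
  -- `q' = (st d') q d'`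
  have hqq : q' = st d' * q * d' := by
    have h2 : ψ (φ y') * (st d' * q * d') = 1 := by
      rw [← hdy]
      calc d * ψ (φ y) * st d * (st d' * q * d') = d * ψ (φ y) * (st d * st d') * q * d' := by
            simp only [mul_assoc]
        _ = d * (ψ (φ y) * q) * d' := by rw [hsd]; simp only [mul_assoc, one_mul]
        _ = 1 := by rw [i2, mul_one, hdd']
    calc q' = q' * (ψ (φ y') * (st d' * q * d')) := by rw [h2, mul_one]
      _ = (q' * ψ (φ y')) * (st d' * q * d') := (mul_assoc _ _ _).symm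
      _ = _ := by rw [i3, one_mul]
  have hcd' : d' * c = c * d' := by
    calc d' * c = d' * c * (d * d') := by rw [hdd', mul_one]
      _ = d' * (c * d) * d' := by simp only [mul_assoc]
      _ = d' * (d * c) * d' := by rw [hc d hd]
      _ = (d' * d) * c * d' := by simp only [mul_assoc]
      _ = _ := by rw [hd'd, one_mul]
  have hstc : st d * st c = st c * st d := by rw [← H.mul, ← H.mul, hc d hd]
  rw [hqq, ← hdy]
  symm
  calc t (st d' * q * d' * c * (d * ψ (φ y) * st d) * st c) =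
      t (st d' * q * (d' * c) * d * ψ (φ y) * (st d * st c)) := by simp only [mul_assoc]
    _ = t (st d' * (q * c * (d' * d) * ψ (φ y) * st c * st d)) := by
        rw [hcd', hstc]; simp only [mul_assoc]
    _ = t ((q * c * ψ (φ y) * st c * st d) * st d') := by
        rw [hd'd, mul_one, H.comm]
    _ = t (q * c * ψ (φ y) * st c * (st d * st d')) := by simp only [mul_assoc]
    _ = _ := by rw [hsd, mul_one]

end Pool.Agent.Helper84.NG
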