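import Mathlib

/-!
MP_0fb3e0_gt, part CA. C4: a subalgebra of a finite-dimensional division algebra whose centralizer
consists of the scalars is everything (Jacobson density).
-/

set_option autoImplicit false

namespace Pool.Agent.Helper84.NG

open Module

/-- A finite-dimensional algebra in which all nonzero elements are invertible, `B` a subalgebra
whose centralizer is `F`: then `B` is everything. -/
theorem eq_top_of_centralizer {F D : Type*} [Field F] [Ring D] [Nontrivial D] [Algebra F D]
    [FiniteDimensional F D] (hD : ∀ y : D, y ≠ 0 → ∃ y' : D, y * y' = 1)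
    (B : Subalgebra F D)
    (hB : ∀ c : D, (∀ b ∈ B, b * c = c * b) → ∃ r : F, c = algebraMap F D r) : B = ⊤ := by
  classical
  -- the bilinear map
  let bil : B →ₗ[F] D →ₗ[F] Module.End F D :=
    LinearMap.mk₂ F (fun b a => LinearMap.mulLeft F (b : D) * LinearMap.mulRight F a)
      (fun m₁ m₂ n => by ext x; simp [add_mul])
      (fun c m n => by ext x; simp)
      (fun m n₁ n₂ => by ext x; simp [mul_add])
      (fun c m n => by ext x; simp)
  let T : TensorProduct F B D →ₗ[F] Module.End F D := TensorProduct.lift bil
  have hTr : ∀ b : B, ∀ a : D, LinearMap.mulLeft F (b : D) * LinearMap.mulRight F a ∈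
      LinearMap.range T := fun b a => ⟨b ⊗ₜ[F] a, by simp [T, bil]⟩
  have hone : (1 : Module.End F D) ∈ LinearMap.range T := by
    have := hTr 1 1
    convert this using 1
    ext x; simp
  have hmul : ∀ f g : Module.End F D, f ∈ LinearMap.range T → g ∈ LinearMap.range T →
      f * g ∈ LinearMap.range T := by
    rintro _ _ ⟨x, rfl⟩ ⟨y, rfl⟩
    induction x using TensorProduct.induction_on with
    | zero => simp
    | add u v hu hv => rw [map_add, add_mul]; exact Submodule.add_mem _ hu hv
    | tmul b a =>
      induction y using TensorProduct.induction_on with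
      | zero => simp
      | add u v hu hv => rw [map_add, mul_add]; exact Submodule.add_mem _ hu hv
      | tmul b' a' =>
        have := hTr (b * b') (a' * a)
        convert this using 1
        ext x
        simp [T, bil, mul_assoc]
  let R : Subalgebra F (Module.End F D) := Submodule.toSubalgebra (LinearMap.range T) hone hmul
  have hR : ∀ f : Module.End F D, f ∈ R ↔ f ∈ LinearMap.range T := fun f => Iff.rfl
  have hright : ∀ a : D, LinearMap.mulRight F a ∈ R := fun a => by
    rw [hR]
    have := hTr 1 a
    convert this using 1
    ext x; simp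
  have hleft : ∀ b ∈ B, LinearMap.mulLeft F b ∈ R := fun b hb => by
    rw [hR]
    have := hTr ⟨b, hb⟩ 1
    convert this using 1
    ext x; simp
  have hsmul : ∀ (r : R) (x : D), r • x = (r : Module.End F D) x := fun r x => rfl
  have hsimple : IsSimpleModule R D := by
    have hnt : Nontrivial (Submodule R D) := inferInstance
    rw [isSimpleModule_iff]
    refine { hnt with eq_bot_or_eq_top := fun N => ?_ }
    rw [or_iff_not_imp_left]
    intro hN
    obtain ⟨y, hyN, hy0⟩ := Submodule.exists_mem_ne_zero_of_ne_bot hN
    obtain ⟨y', hy'⟩ := hD y hy0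
    rw [eq_top_iff]
    intro d _
    have h1 := N.smul_mem (⟨LinearMap.mulRight F (y' * d), hright _⟩ : R) hyN
    rw [hsmul] at h1
    simpa [← mul_assoc, hy'] using h1
  -- every endomorphism is in `R`
  have hall : ∀ g : Module.End F D, g ∈ R := by
    intro g
    have hscal : ∀ φ : Module.End R D, ∃ r : F, ∀ m : D, φ m = r • m := by
      intro φ
      have h1 : ∀ m : D, φ m = φ 1 * m := by
        intro m
        have h2 := φ.map_smul (⟨LinearMap.mulRight F m, hright m⟩ : R) 1
        rw [hsmul, hsmul] at h2
        simpa using h2
      have h3 : ∀ b ∈ B, b * φ 1 = φ 1 * b := by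
        intro b hb
        have h2 := φ.map_smul (⟨LinearMap.mulLeft F b, hleft b hb⟩ : R) 1
        rw [hsmul, hsmul] at h2
        simp only [LinearMap.mulLeft_apply, mul_one] at h2
        rw [← h2, h1 b]
      obtain ⟨r, hr⟩ := hB _ h3
      exact ⟨r, fun m => by rw [h1 m, hr, Algebra.smul_def]⟩
    let f : Module.End (Module.End R D) D :=
      { toFun := g
        map_add' := g.map_add
        map_smul' := fun φ m => by
          obtain ⟨r, hr⟩ := hscal φ
          simp only [Module.End.smul_def, RingHom.id_apply]
          rw [hr m, hr (g m), map_smul] }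
    let bs := Module.finBasis F D
    obtain ⟨r, hr⟩ := jacobson_density (R := R) (M := D) f (Finset.univ.image bs)
    have h4 : g = (r : Module.End F D) := by
      apply bs.ext
      intro i
      exact hr (bs i) (Finset.mem_image_of_mem _ (Finset.mem_univ i))
    rw [h4]
    exact r.2
  have hrange : LinearMap.range T = ⊤ := by
    rw [eq_top_iff]
    intro g _
    exact hall g
  have hfin : finrank F (Module.End F D) ≤ finrank F (TensorProduct F B D) := by
    rw [← finrank_top, ← hrange]
    exact LinearMap.finrank_range_le T
  rw [Module.finrank_tensorProduct, Module.finrank_linearMap] at hfin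
  have hpos : 0 < finrank F D := Module.finrank_pos
  have h5 : finrank F D ≤ finrank F B := Nat.le_of_mul_le_mul_right hfin hpos
  have h6 : finrank F (Subalgebra.toSubmodule B) = finrank F D :=
    le_antisymm (Submodule.finrank_le _) h5
  have h7 := Submodule.eq_top_of_finrank_eq h6
  exact Algebra.toSubmodule_eq_top.mp h7

end Pool.Agent.Helper84.NG
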