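import Mathlib
import Pool.Agent.Helper84.NG.Bdd
import Pool.Agent.Helper84.NG.Cent

/-!
MP_0fb3e0_gt, part CA. The abstract theorem: `D` a finite-dimensional division algebra over `ℚ`
without anti-automorphism, embedded in the model `A` of `M_2(ℍ)`; then no set `Λ` of elements of
`D` acts cocompactly on a totally geodesic hyperplane of `H^5`.
-/

set_option autoImplicit false

namespace Pool.Agent.Helper84.NG

open H77T2

variable {A D : Type*} [Ring A] [Algebra ℝ A] [Ring D] [Algebra ℚ D]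

theorem map_rat (ι : D →+* A) (q : ℚ) : ι (algebraMap ℚ D q) = algebraMap ℝ A (q : ℝ) := by
  have : ι.comp (algebraMap ℚ D) = (algebraMap ℝ A).comp (algebraMap ℚ ℝ) := Subsingleton.elim _ _
  exact RingHom.congr_fun this q

theorem no_hyperplane [Nontrivial A] [FiniteDimensional ℝ A]
    (hfin : Module.finrank ℝ A = 16) {t : A →ₗ[ℝ] ℝ} {st : A →ₗ[ℝ] A}
    {ψ : (Fin (5 + 1) → ℝ) →ₗ[ℝ] A} (H : Model 5 t st ψ)
    [Nontrivial D] [FiniteDimensional ℚ D] (hD : ∀ y : D, y ≠ 0 → ∃ y' : D, y * y' = 1)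
    (ι : D →+* A) (hι : Function.Injective ι)
    (hreal : ∀ (d : D) (r : ℝ), ι d = algebraMap ℝ A r → ∃ q : ℚ, d = algebraMap ℚ D q)
    (hanti : ∀ σ : D →ₗ[ℚ] D, σ 1 = 1 → ¬ ∀ a b, σ (a * b) = σ b * σ a)
    {φ : (Fin (4 + 1) → ℝ) →ₗ[ℝ] (Fin (5 + 1) → ℝ)}
    (hφ : ∀ x y, mink 5 (φ x) (φ y) = mink 4 x y) (hpos : 0 < φ (Pi.single 0 1) 0)
    (Λ : Set D) (hinv : ∀ d ∈ Λ, ∃ d', d * d' = 1 ∧ d' * d = 1)
    (hM : ∀ d ∈ Λ, ∃ M : (Fin (5 + 1) → ℝ) →ₗ[ℝ] (Fin (5 + 1) → ℝ),
      (∀ x, ι d * ψ x * st (ι d) = ψ (M x)) ∧ (∀ x y, mink 5 (M x) (M y) = mink 5 x y) ∧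
      ∀ y, ∃ y', M (φ y) = φ y')
    (hcoc : ∃ R : ℝ, ∀ y ∈ Hyp 4, ∃ d ∈ Λ, ∃ y' ∈ Hyp 4, y' 0 ≤ R ∧
      ι d * ψ (φ y) * st (ι d) = ψ (φ y')) : False := by
  -- the commutant of `Λ` in `D` is `ℚ`
  have hcent : ∀ c : D, (∀ d ∈ Λ, d * c = c * d) → ∃ q : ℚ, c = algebraMap ℚ D q := by
    intro c hc
    have h1 : ∃ r : ℝ, ι c = algebraMap ℝ A r := by
      apply scalar_of_cocompact hfin H hφ hpos (ι c) (ι '' Λ)
      · rintro _ ⟨d, hd, rfl⟩
        obtain ⟨d', h1, h2⟩ := hinv d hd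
        exact ⟨ι d', by rw [← map_mul, h1, map_one], by rw [← map_mul, h2, map_one]⟩
      · obtain ⟨R, hR⟩ := hcoc
        refine ⟨R, fun y hy => ?_⟩
        obtain ⟨d, hd, y', hy', h1, h2⟩ := hR y hy
        exact ⟨ι d, ⟨d, hd, rfl⟩, y', hy', h1, h2⟩
      · rintro _ ⟨d, hd, rfl⟩
        rw [← map_mul, ← map_mul, hc d hd]
    obtain ⟨r, hr⟩ := h1
    exact hreal c r hr
  -- `Λ` generates `D`
  have htop : Algebra.adjoin ℚ Λ = ⊤ := by
    apply eq_top_of_centralizer hD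
    intro c hc
    exact hcent c fun d hd => hc d (Algebra.subset_adjoin hd)
  -- the normal vector
  obtain ⟨v, hvv, hv, hspan⟩ := exists_normal hφ
  obtain ⟨κ, hκ⟩ : ∃ κ, κ = mink (4 + 1) v v := ⟨_, rfl⟩
  rw [← hκ] at hvv
  have j1 := inv_left H v
  have j2 := inv_right H v
  have hκ' : mink 5 v v = κ := hκ.symm
  rw [hκ'] at j1 j2
  obtain ⟨V', hV'⟩ : ∃ V', V' = κ⁻¹ • ((2 * v 0) • (1 : A) - ψ v) := ⟨_, rfl⟩
  have hVV' : ψ v * V' = 1 := by
    rw [hV', mul_smul_comm, j2, smul_smul, inv_mul_cancel₀ hvv, one_smul]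
  have hV'V : V' * ψ v = 1 := by
    rw [hV', smul_mul_assoc, j1, smul_smul, inv_mul_cancel₀ hvv, one_smul]
  -- the anti-automorphism
  have hmem : ∀ d : D, ∃ e : D, ψ v * st (ι d) * V' = ι e := by
    intro d
    have hd : d ∈ Algebra.adjoin ℚ Λ := by rw [htop]; trivial
    induction hd using Algebra.adjoin_induction with
    | mem d hd =>
      obtain ⟨M, hM1, hM2, hM3⟩ := hM d hd
      obtain ⟨a, ha, hMv⟩ := normal_sign hφ (by rw [← hκ]; exact hvv) hv hspan M hM2 hM3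
      obtain ⟨d', hdd', hd'd⟩ := hinv d hd
      have h1 : ι d * ψ v * st (ι d) = a • ψ v := by rw [hM1, hMv, map_smul]
      have h2 : ψ v * st (ι d) = a • (ι d' * ψ v) := by
        calc ψ v * st (ι d) = (ι d' * ι d) * ψ v * st (ι d) := by
              rw [← map_mul, hd'd, map_one, one_mul]
          _ = ι d' * (ι d * ψ v * st (ι d)) := by simp only [mul_assoc]
          _ = _ := by rw [h1, mul_smul_comm]
      have h3 : ψ v * st (ι d) * V' = a • ι d' := by
        rw [h2, smul_mul_assoc, mul_assoc, hVV', mul_one]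
      have h4 : a = 1 ∨ a = -1 := mul_self_eq_one_iff.mp ha
      rcases h4 with h4 | h4
      · exact ⟨d', by rw [h3, h4, one_smul]⟩
      · exact ⟨-d', by rw [h3, h4, neg_smul, one_smul, map_neg]⟩
    | algebraMap q =>
      refine ⟨algebraMap ℚ D q, ?_⟩
      rw [map_rat, Algebra.algebraMap_eq_smul_one, map_smul, H.one, mul_smul_comm, mul_one,
        smul_mul_assoc, hVV']
    | add x y _ _ hx hy =>
      obtain ⟨e, he⟩ := hx
      obtain ⟨f, hf⟩ := hy
      exact ⟨e + f, by rw [map_add, map_add, mul_add, add_mul, he, hf, map_add]⟩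
    | mul x y _ _ hx hy =>
      obtain ⟨e, he⟩ := hx
      obtain ⟨f, hf⟩ := hy
      refine ⟨f * e, ?_⟩
      rw [map_mul, H.mul, map_mul, ← he, ← hf]
      calc ψ v * (st (ι y) * st (ι x)) * V' = ψ v * st (ι y) * 1 * st (ι x) * V' := by
            simp only [mul_assoc, one_mul]
        _ = ψ v * st (ι y) * (V' * ψ v) * st (ι x) * V' := by rw [hV'V]
        _ = _ := by simp only [mul_assoc]
  choose f hf using hmem
  have hadd : ∀ a b, f (a + b) = f a + f b := by
    intro a b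
    apply hι
    rw [map_add, ← hf, ← hf, ← hf, map_add, map_add, mul_add, add_mul]
  have hmul : ∀ a b, f (a * b) = f b * f a := by
    intro a b
    apply hι
    rw [map_mul, ← hf, ← hf, ← hf, map_mul, H.mul]
    calc ψ v * (st (ι b) * st (ι a)) * V' = ψ v * st (ι b) * 1 * st (ι a) * V' := by
          simp only [mul_assoc, one_mul]
      _ = ψ v * st (ι b) * (V' * ψ v) * st (ι a) * V' := by rw [hV'V]
      _ = _ := by simp only [mul_assoc]
  have hone : f 1 = 1 := by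
    apply hι
    rw [← hf, map_one, H.one, mul_one, hVV']
  let F : D →+ D := { toFun := f, map_zero' := by
                        have := hadd 0 0
                        rw [add_zero] at this
                        exact left_eq_add.mp this
                      map_add' := hadd }
  exact hanti F.toRatLinearMap hone hmul

end Pool.Agent.Helper84.NG
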