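import Mathlib
import Pool.Agent.Helper77.T2.MTab
import Pool.Agent.Helper77.T2.Gens

/-!
MP_0fb3e0_gt. The action of `A5` on the six coordinates, over the number field `Q6`: definitions.
-/

set_option autoImplicit false

namespace Pool.Agent.Helper84.NG

open H77T2 L5 A5

/-- rational scalars in `Q6` -/
def iq : ℚ →+* Q6 where
  toFun r := ⟨r, 0⟩
  map_one' := rfl
  map_mul' a b := by ext <;> simp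
  map_zero' := rfl
  map_add' a b := by ext <;> simp

def st6 (g : A5 Q6) : A5 Q6 :=
  ⟨cj g.l0, -(L5.of ⟨0, 3⟩ * sg (sg (sg g.l3))), -g.l2, -(L5.of ⟨0, 1 / 18⟩ * sg g.l1)⟩

def emb6 (v : V6) : A5 Q6 :=
  ⟨⟨v.c0 - v.c1, 0, -2 * v.c1, -2 * v.c1⟩, ⟨v.c2, v.c3, v.c4, v.c5⟩, 0,
    -(L5.of ⟨0, 1 / 18⟩ * sg ⟨v.c2, v.c3, v.c4, v.c5⟩)⟩

def co6 (X : A5 Q6) : V6 :=
  ⟨X.l0.c0 - X.l0.c2 * ⟨1 / 2, 0⟩, -(X.l0.c2 * ⟨1 / 2, 0⟩), X.l1.c0, X.l1.c1, X.l1.c2, X.l1.c3⟩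

def T6 (g : A5 Q6) (v : V6) : V6 := co6 (g * emb6 v * st6 g)

def e6 : Fin 6 → V6
  | 0 => ⟨1, 0, 0, 0, 0, 0⟩
  | 1 => ⟨0, 1, 0, 0, 0, 0⟩
  | 2 => ⟨0, 0, 1, 0, 0, 0⟩
  | 3 => ⟨0, 0, 0, 1, 0, 0⟩
  | 4 => ⟨0, 0, 0, 0, 1, 0⟩
  | 5 => ⟨0, 0, 0, 0, 0, 1⟩

end Pool.Agent.Helper84.NG
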