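import Mathlib
import Pool.Agent.Helper84.NG.IdentDefs

/-!
MP_0fb3e0_gt. The checks of the tables for the elements `k`.
-/

set_option autoImplicit false

namespace Pool.Agent.Helper84.NG

open H77T2 L5 A5

theorem h_uk2 (i : Fin 6) : T6 (A5.map iq (oe (ec 15))) (e6 i) =
    V6.smul 2 (M6.mulVec (MT 22) (e6 i)) := by
  revert i; decide +kernel

end Pool.Agent.Helper84.NG
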