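import Mathlib
import Pool.Agent.Helper84.NG.HS
import Pool.Agent.Helper84.NG.IdentA
import Pool.Agent.Helper84.NG.IdentB
import Pool.Agent.Helper84.NG.IdentC
import Pool.Agent.Helper84.NG.IdentD
import Pool.Agent.Helper74.TF.Defs

/-!
MP_0fb3e0_gt. The tables `MT` are the matrices of the generators.
-/

set_option autoImplicit false

namespace Pool.Agent.Helper84.NG

open H77T2 L5 A5

theorem toR_iq (r : ℚ) : Q6.toR (iq r) = (r : ℝ) := by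
  show Q6.toR ⟨r, 0⟩ = _
  rw [Q6.toR_mk]; simp

theorem map_iq (g : A5 ℚ) : A5.map Q6.toR (A5.map iq g) = A5.map (Rat.castHom ℝ) g := by
  ext <;> exact toR_iq _

theorem s54_div : Q6.toR ⟨0, 1 / 18⟩ = s54 / 54 := by
  rw [← Q6.toR_s54, Q6.toR_mk, Q6.toR_mk]; push_cast; ring

theorem map_st6 (g : A5 Q6) : A5.map Q6.toR (st6 g) = st (A5.map Q6.toR g) := by
  have h1 := Q6.toR_s54
  have h2 := s54_div
  ext <;> simp [st6, st, A5.map, L5.map, cj, L5.of, h1, ← h2]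

theorem map_emb6 (v : V6) : A5.map Q6.toR (emb6 v) = emb v.toR := by
  have h2 := s54_div
  have h3 : Q6.toR 2 = 2 := map_ofNat _ 2
  ext <;> simp [emb6, emb, A5.map, L5.map, L5.of, V6.toR, ← h2, h3]

theorem co6_toR (X : A5 Q6) : (co6 X).toR = co (A5.map Q6.toR X) := by
  have h : Q6.toR ⟨1 / 2, 0⟩ = 1 / 2 := by rw [Q6.toR_mk]; norm_num
  funext i
  fin_cases i
  · show Q6.toR (X.l0.c0 - X.l0.c2 * ⟨1 / 2, 0⟩) = Q6.toR X.l0.c0 - Q6.toR X.l0.c2 / 2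
    rw [map_sub, map_mul, h]; ring
  · show Q6.toR (-(X.l0.c2 * ⟨1 / 2, 0⟩)) = -(Q6.toR X.l0.c2 / 2)
    rw [map_neg, map_mul, h]; ring
  · rfl
  · rfl
  · rfl
  · rfl

theorem T6_toR (g : A5 Q6) (v : V6) : (T6 g v).toR = T (A5.map Q6.toR g) v.toR := by
  unfold T6 T
  rw [co6_toR, map_mul, map_mul, map_st6, map_emb6]

theorem e6_toR (i : Fin 6) : (e6 i).toR = Pi.single i 1 := by
  funext j
  fin_cases i <;> fin_cases j <;> simp [e6, V6.toR]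

/-- comparison of `T g` with a matrix on the basis vectors -/
theorem T_eq_of (g : A5 ℚ) (M : M6) (c : Q6)
    (h : ∀ i, T6 (A5.map iq g) (e6 i) = V6.smul c (M6.mulVec M (e6 i))) (v : Fin 6 → ℝ) :
    T (A5.map (Rat.castHom ℝ) g) v = Q6.toR c • M.toR.mulVec v := by
  have key : TL (A5.map (Rat.castHom ℝ) g) = Q6.toR c • Matrix.mulVecLin M.toR := by
    apply (Pi.basisFun ℝ (Fin 6)).ext
    intro i
    rw [Pi.basisFun_apply, TL_apply, LinearMap.smul_apply, Matrix.mulVecLin_apply, ← e6_toR,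
      ← map_iq, ← T6_toR, h, V6.toR_smul, M6.toR_mulVec]
  have := congrArg (fun f => f v) key
  exact this

theorem fin5_cases (m : Fin 5) : m = 0 ∨ m = 1 ∨ m = 2 ∨ m = 3 ∨ m = 4 := by
  revert m; decide

theorem h_uk (m : Fin 5) (i : Fin 6) : T6 (A5.map iq (oe (ec (![7, 0, 15, 16, 9] m)))) (e6 i) =
    V6.smul (![1, 2, 2, 2, 1] m) (M6.mulVec (MT (20 + m)) (e6 i)) := by
  rcases fin5_cases m with h | h | h | h | h
  · subst h
    have h1 : (![7, 0, 15, 16, 9] : Fin 5 → ℕ) 0 = 7 := rfl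
    have h2 : (![1, 2, 2, 2, 1] : Fin 5 → Q6) 0 = 1 := rfl
    have h3 : 20 + ((0 : Fin 5) : ℕ) = 20 := rfl
    rw [h1, h2, h3]
    exact h_uk0 i
  · subst h
    have h1 : (![7, 0, 15, 16, 9] : Fin 5 → ℕ) 1 = 0 := rfl
    have h2 : (![1, 2, 2, 2, 1] : Fin 5 → Q6) 1 = 2 := rfl
    have h3 : 20 + ((1 : Fin 5) : ℕ) = 21 := rfl
    rw [h1, h2, h3]
    exact h_uk1 i
  · subst h
    have h1 : (![7, 0, 15, 16, 9] : Fin 5 → ℕ) 2 = 15 := rfl
    have h2 : (![1, 2, 2, 2, 1] : Fin 5 → Q6) 2 = 2 := rfl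
    have h3 : 20 + ((2 : Fin 5) : ℕ) = 22 := rfl
    rw [h1, h2, h3]
    exact h_uk2 i
  · subst h
    have h1 : (![7, 0, 15, 16, 9] : Fin 5 → ℕ) 3 = 16 := rfl
    have h2 : (![1, 2, 2, 2, 1] : Fin 5 → Q6) 3 = 2 := rfl
    have h3 : 20 + ((3 : Fin 5) : ℕ) = 23 := rfl
    rw [h1, h2, h3]
    exact h_uk3 i
  · subst h
    have h1 : (![7, 0, 15, 16, 9] : Fin 5 → ℕ) 4 = 9 := rfl
    have h2 : (![1, 2, 2, 2, 1] : Fin 5 → Q6) 4 = 1 := rfl
    have h3 : 20 + ((4 : Fin 5) : ℕ) = 24 := rfl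
    rw [h1, h2, h3]
    exact h_uk4 i

/-- the matrix of `z` -/
theorem T_uz (v : Fin 6 → ℝ) :
    T (Pool.Agent.Helper74.TF.toR (uz : A5 ℚ)) v = (MT 4).toR.mulVec v := by
  have h := T_eq_of A5.z (MT 4) 1 h_uz v
  rw [map_one, one_smul] at h
  rw [uz_val]
  exact h

/-- the matrix of `x`, up to the factor `√54` -/
theorem T_ux (v : Fin 6 → ℝ) :
    T (Pool.Agent.Helper74.TF.toR (ux : A5 ℚ)) v = s54 • (MT 1).toR.mulVec v := by
  have h := T_eq_of A5.x (MT 1) ⟨0, 3⟩ h_ux v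
  rw [Q6.toR_s54] at h
  exact h

theorem uk0_val : ((uk 0 : (A5 ℚ)ˣ) : A5 ℚ) = oe (ec 7) := rfl

theorem uk1_val : ((uk 1 : (A5 ℚ)ˣ) : A5 ℚ) = oe (ec 0) := rfl

theorem uk4_val : ((uk 4 : (A5 ℚ)ˣ) : A5 ℚ) = oe (ec 9) := rfl

theorem uk_val (m : Fin 5) : ((uk m : (A5 ℚ)ˣ) : A5 ℚ) = oe (ec (![7, 0, 15, 16, 9] m)) := by
  rcases fin5_cases m with h | h | h | h | h
  · subst h
    have h1 : (![7, 0, 15, 16, 9] : Fin 5 → ℕ) 0 = 7 := rfl
    rw [h1]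
    exact uk0_val
  · subst h
    have h1 : (![7, 0, 15, 16, 9] : Fin 5 → ℕ) 1 = 0 := rfl
    rw [h1]
    exact uk1_val
  · subst h
    have h1 : (![7, 0, 15, 16, 9] : Fin 5 → ℕ) 2 = 15 := rfl
    rw [h1]
    exact uk2_val
  · subst h
    have h1 : (![7, 0, 15, 16, 9] : Fin 5 → ℕ) 3 = 16 := rfl
    rw [h1]
    exact uk3_val
  · subst h
    have h1 : (![7, 0, 15, 16, 9] : Fin 5 → ℕ) 4 = 9 := rfl
    rw [h1]
    exact uk4_val

/-- the matrices of `k_m`, up to the factor `n_m` -/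
theorem T_uk (m : Fin 5) (v : Fin 6 → ℝ) :
    T (Pool.Agent.Helper74.TF.toR (uk m : A5 ℚ)) v =
      (![1, 2, 2, 2, 1] m : ℝ) • (MT (20 + m)).toR.mulVec v := by
  have h := T_eq_of (oe (ec (![7, 0, 15, 16, 9] m))) (MT (20 + m)) (![1, 2, 2, 2, 1] m)
    (h_uk m) v
  have hc : Q6.toR (![1, 2, 2, 2, 1] m) = (![1, 2, 2, 2, 1] m : ℝ) := by
    have h1 : Q6.toR 2 = 2 := map_ofNat _ 2
    fin_cases m
    · exact map_one _
    · exact h1
    · exact h1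
    · exact h1
    · exact map_one _
  rw [hc] at h
  rw [uk_val]
  exact h

end Pool.Agent.Helper84.NG
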