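import Pool.Agent.Helper65.FN.Fin1

/-!
MP_0fb3e0_gt. From Boolean certificates for representatives of the pairs of walls to the
ridge condition of the extension theorem.
-/

set_option autoImplicit false

namespace Pool.Agent.Helper84.NG

open H77T2 Pool.Agent.Helper65.FN Pool.Agent.Helper65.L1 Pool.Agent.Helper74.TF

/-- the group of the extension -/
abbrev GX := ↥(IsomHyp 5) × WP (Fin 405) (GL (Fin 2) ℤ)

/-- the setup of the extension -/
noncomputable def SX : Setup GX := setupG.prod setupF

theorem ext_K (w : Fin 52) : L.ext.K w = SX.K w := rfl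

theorem ext_q (a : Q20) : SX.q a ∈ L.ext.E0 := by
  have h := L.mem_E0 ⟨qG a, ⟨a, rfl⟩⟩
  have h2 : L.φ0 ⟨qG a, ⟨a, rfl⟩⟩ = qF a := phi0_apply a
  rw [h2] at h
  exact h

theorem isTab_ext : IsTab L.ext := ⟨isTab_D.B, isTab_D.x0, isTab_D.n⟩

/-- the letters in the group of the extension -/
noncomputable def LX (n : ℕ) : GX := (LG n, LW n)

theorem prod_LX (l : List ℕ) : (l.map LX).prod = ((l.map LG).prod, (l.map LW).prod) := by
  induction l with
  | nil => rfl
  | cons n l ih =>
    rw [List.map_cons, List.prod_cons, ih, List.map_cons, List.prod_cons, List.map_cons,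
      List.prod_cons]
    rfl

theorem setupF_K (w : Fin 52) : setupF.K w = ((wdK w).map LW).prod := by
  show qF (wu w) * LW (20 + (wm w : ℕ)) * (qF (wu w))⁻¹ = _
  rw [← map_inv, qF_apply, qF_apply]
  simp only [wdK, List.map_cons, List.map_nil, List.prod_cons, List.prod_nil, mul_one, mul_assoc]

theorem ext_K_word (w : Fin 52) : L.ext.K w = ((wdK w).map LX).prod := by
  rw [prod_LX, ← setupG_K, ← setupF_K]
  rfl

theorem ext_K_words (l : List (Fin 52)) :
    (l.map L.ext.K).prod = ((l.flatMap wdK).map LX).prod := by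
  induction l with
  | nil => rfl
  | cons w l ih =>
    rw [List.map_cons, List.prod_cons, ih, ext_K_word, List.flatMap_cons, List.map_append,
      List.prod_append]

theorem SX_q (a : Q20) : SX.q a = LX (lt a) := rfl

theorem rel_of_chk {l l' : List ℕ} (h : chkM l l' = true) (h' : chkF l l' = true) :
    (l.map LX).prod = (l'.map LX).prod := by
  rw [prod_LX, prod_LX, rel_of_chkM h, rel_of_chkF h']

theorem words_lt (s : Fin 52) (l : List (Fin 52)) : ∀ n ∈ wdK s ++ l.flatMap wdK, n < 25 := by
  intro n hn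
  rw [List.mem_append, List.mem_flatMap] at hn
  rcases hn with h | ⟨w, -, h⟩
  · exact wdK_lt s n h
  · exact wdK_lt w n h

/-- the first coefficient of `v` in the basis `n_s`, `n_t` (Cramer) -/
def cra (s t : ℕ) (v : V6) : Q6 :=
  (V6.B (nv t) (nv t) * V6.B v (nv s) - V6.B (nv s) (nv t) * V6.B v (nv t)) *
    qinv (V6.B (nv s) (nv s) * V6.B (nv t) (nv t) - V6.B (nv s) (nv t) * V6.B (nv s) (nv t))

/-- the check that a point lies in the cone of the ridge -/
def chkC (s t : ℕ) (v : V6) : Bool :=
  chkCone s t v (cra s t (v.sub ov)) (cra t s (v.sub ov))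

/-- the check of a cycle: the closing relation and the points of the cycle -/
def chkCyc (s t : Fin 52) (l : List (Fin 52)) (v : Q20) : Bool :=
  chkM (wdK s ++ l.flatMap wdK) (wdK t ++ [lt v]) &&
    chkF (wdK s ++ l.flatMap wdK) (wdK t ++ [lt v]) &&
    allN (fun i => i == 0 || chkC s t (apV (wdK s ++ (l.take i).flatMap wdK) ov)) l.length

theorem cyc_of_chk {s t : Fin 52} {l : List (Fin 52)} {v : Q20} (h : chkCyc s t l v = true) :
    L.ext.Cyc s t := by
  unfold chkCyc at h
  rw [Bool.and_eq_true, Bool.and_eq_true] at h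
  obtain ⟨⟨h1, h2⟩, h3⟩ := h
  refine L.ext.cyc_of_list l (ext_q v) ?_ ?_
  · have h4 := rel_of_chk h1 h2
    rw [List.map_append, List.prod_append, List.map_append, List.prod_append, ← ext_K_word,
      ← ext_K_words, ← ext_K_word, List.map_cons, List.map_nil, List.prod_cons, List.prod_nil,
      mul_one, ← SX_q] at h4
    exact h4
  · intro i hi1 hi2
    have h4 := allN_spec h3 i hi2
    rw [Bool.or_eq_true] at h4
    rcases h4 with h4 | h4
    · rw [beq_iff_eq] at h4
      omega
    · refine inCone_of_chk isTab_ext ?_ h4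
      have h5 : L.ext.K s * ((l.take i).map L.ext.K).prod =
          ((wdK s ++ (l.take i).flatMap wdK).map LX).prod := by
        rw [ext_K_words, ext_K_word, List.map_append, List.prod_append]
      rw [h5, prod_LX]
      show rhoV (((wdK s ++ (l.take i).flatMap wdK).map LG).prod) o6 = _
      rw [← ov_toR, rhoV_word _ (words_lt s _)]

/-- the ridge condition from tables for representatives of the pairs of walls -/
theorem hb_of_tables {R : ℕ} (rs rt : Fin R → Fin 52)
    (hc : ∀ r, L.ext.Cyc (rs r) (rt r) ∨ ¬ IsRidge L.ext.N L.ext.P (rs r) (rt r))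
    (hp : ∀ s t : Fin 52, s ≠ t → ∃ (u : Q20) (r : Fin R),
      (act u s = rs r ∧ act u t = rt r) ∨ (act u t = rs r ∧ act u s = rt r)) :
    ∀ s t, s ≠ t → IsRidge D.N D.P s t → L.ext.Cyc s t := by
  refine L.ext.ridge_reduce isTab_ext.n_inj ?_
  intro s t hst
  obtain ⟨u, r, h⟩ := hp s t hst
  refine ⟨rs r, rt r, hc r, SX.q u, ext_q u, ?_⟩
  rcases h with ⟨h1, h2⟩ | ⟨h1, h2⟩
  · refine ⟨_, ext_q (Setup.vact u s), _, ext_q (Setup.vact u t), Or.inl ⟨?_, ?_⟩⟩
    · rw [← h1]
      exact SX.eqv u s
    · rw [← h2]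
      exact SX.eqv u t
  · refine ⟨_, ext_q (Setup.vact u t), _, ext_q (Setup.vact u s), Or.inr ⟨?_, ?_⟩⟩
    · rw [← h1]
      exact SX.eqv u t
    · rw [← h2]
      exact SX.eqv u s

end Pool.Agent.Helper84.NG
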